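import Pool.Agent.helper63.Dg4.Eng4

/-!
# The finite-injury construction: verification
-/

namespace Pool.Agent.helper63.Dg4

open Encodable Pool.Agent.helper63.Diag

set_option maxHeartbeats 400000

variable (FF : FS)

/-- the successful outcome of a requirement `R` -/
def WinR (e ℓ : ℕ) : Prop :=
  ∃ (a : ℕ) (γ : List ℕ), a < ℓ ∧ (∃ s, We s e (encode (ℓ, a, γ))) ∧ Er FF ℓ a ∧ ∀ z < γ.length, Er FF z (γ.getD z 0)

/-- the first outcome of a requirement `Q` -/
def WinQ (j k e : ℕ) : Prop :=
  ∀ w, Inv (Er FF) k w → ∃ m y z, (∃ s, We s e (encode (res w m, y, z))) ∧ FF.F j y z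

theorem cf_range (R : List ℕ) (ℓ z : ℕ) :
    cf R (ℓ + 1) (List.range (ℓ + 1)) z = if rt R z < ℓ + 1 then rt R z else 0 := by
  unfold cf
  split_ifs with h
  · rw [List.getD_eq_getElem?_getD, List.getElem?_range h]; rfl
  · rw [List.getD_eq_getElem?_getD, List.getElem?_range (by omega)]; rfl

/-- invariant for the requirements `R` -/
theorem inv_R (s : ℕ) : ∀ i < (Sg FF s).2.length, i.unpair.1 = 0 →
    rs FF s (th (Sg FF s) i) = th (Sg FF s) i ∨ WinR FF i.unpair.2 (th (Sg FF s) i) := by
  induction s with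
  | zero => intro i hi; simp [Sg] at hi
  | succ s ih =>
    intro i hi h0
    have hg := good FF s
    rw [len_succ] at hi
    rcases Nat.lt_succ_iff_lt_or_eq.1 hi with h | h
    · rw [th_succ_lt FF h]
      rcases ih i (lt_of_lt_of_le h (ac_le FF s)) h0 with h1 | h1
      · left
        have h2 : th (Sg FF s) i < lo FF s (ist FF s (Sg FF s)) (Sg FF s) := th_lt_lo hg h
        have h3 : rt (Sg FF s).1 (th (Sg FF s) i) = th (Sg FF s) i := h1
        show rt (stage FF s (Sg FF s)).1 (th (Sg FF s) i) = _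
        rw [rt_keep hg (by rw [h3]; exact h2), h3]
      · exact Or.inr h1
    · rcases (ac_le FF s).lt_or_eq with h1 | h1
      · right
        have hat := ac_att FF h1
        rw [h, th_succ_eq FF h1]
        rw [h] at h0
        have hR := att_kind hat h0
        obtain ⟨a, ha, ⟨m, hm, hW⟩, ht⟩ := tgR_spec hR
        have hlo : lo FF s (ist FF s (Sg FF s)) (Sg FF s) = th (Sg FF s) (ac FF s) := by
          show lo FF s (ac FF s) (Sg FF s) = th (Sg FF s) (ac FF s)
          simp [lo, h1, h0]
        have htg : tg s (ist FF s (Sg FF s)) (Sg FF s) = rt (Sg FF s).1 a := by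
          rw [← ht]
          show tg s (ac FF s) (Sg FF s) = tgR s (ac FF s) (Sg FF s)
          simp [tg, h1, h0]
        have hst : ∀ z, z < s + 2 → rs FF (s + 1) z =
            fm (th (Sg FF s) (ac FF s)) (rt (Sg FF s).1 a) (rt (Sg FF s).1 z) := by
          intro z hz
          show rt (stage FF s (Sg FF s)).1 z = _
          rw [rt_stage, if_pos hz, hlo, htg]
        have hthle := hg.thle _ h1
        have hth2 := hg.th2 _ h1
        refine ⟨a, _, ha, ⟨s, hW⟩, ⟨s + 1, ?_⟩, ?_⟩
        · rw [hst _ (by omega), hst _ (by omega), hR.1, fm_eq,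
            fm_lt (lt_of_le_of_lt (hg.le a) ha)]
        · intro z hz
          unfold cs at hz ⊢
          rw [res_length] at hz
          rw [res_getD _ hz, cf_range]
          split_ifs with h2
          · exact Er_rs FF s z
          · refine ⟨s + 1, ?_⟩
            rw [hst z (by omega), hst 0 (by omega), fm_gt (by omega)]
            have : rt (Sg FF s).1 0 = 0 := rs_zero FF s
            rw [this, fm_lt (by omega)]
      · left
        have h2 : th (Sg FF (s + 1)) (ac FF s) = s + 2 := (stage_new h1).1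
        rw [h, h2]
        exact (good FF (s + 1)).big _ (by omega)

/-- invariant for the requirements `Q` -/
theorem inv_Q (s : ℕ) : ∀ i < (Sg FF s).2.length, ¬ i.unpair.1 = 0 → ct (Sg FF s) i = 0 →
    WinQ FF (i.unpair.1 - 1) i.unpair.2.unpair.1 i.unpair.2.unpair.2 := by
  induction s with
  | zero => intro i hi; simp [Sg] at hi
  | succ s ih =>
    intro i hi h0 hc
    have hg := good FF s
    rw [len_succ] at hi
    rcases Nat.lt_succ_iff_lt_or_eq.1 hi with h | h
    · rw [ct_succ_lt FF h] at hc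
      exact ih i (lt_of_lt_of_le h (ac_le FF s)) h0 hc
    · rcases (ac_le FF s).lt_or_eq with h1 | h1
      · have h3 : (Sg FF (s + 1)).2.getD (ac FF s) (0, 0) = np FF s (ac FF s) (Sg FF s) :=
          stage_getD_eq
        rw [h] at h0 hc ⊢
        unfold ct at hc
        rw [h3] at hc
        unfold np at hc
        by_cases hA : ARf FF s (ac FF s) (Sg FF s)
        · have hlo : lo FF s (ist FF s (Sg FF s)) (Sg FF s) = th (Sg FF s) (ac FF s) := by
            show lo FF s (ac FF s) (Sg FF s) = th (Sg FF s) (ac FF s)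
            simp [lo, h1, hA]
          have htg : tg s (ist FF s (Sg FF s)) (Sg FF s) = 0 := by
            show tg s (ac FF s) (Sg FF s) = 0
            simp [tg, h0]
          have hst : ∀ z, z < s + 2 → rs FF (s + 1) z =
              fm (th (Sg FF s) (ac FF s)) 0 (rt (Sg FF s).1 z) := by
            intro z hz
            show rt (stage FF s (Sg FF s)).1 z = _
            rw [rt_stage, if_pos hz, hlo, htg]
          have hth2 := hg.th2 _ h1
          intro w hw
          obtain ⟨m, hm, y, hy, z, hz, hW, hF⟩ := hA (res w (th (Sg FF s) (ac FF s)))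
            (res_mem_strs hw.1)
          refine ⟨m, y, z, ⟨s, ?_⟩, (FF.iff _ _ _).2 ⟨s, hF⟩⟩
          have : cs (Sg FF s).1 (th (Sg FF s) (ac FF s)) (res w (th (Sg FF s) (ac FF s))) m =
              res w m := by
            unfold cs
            refine res_congr (fun x hx => ?_)
            unfold cf
            split_ifs with h2
            · rw [res_getD w h2]
              exact (hw.2 _ _ (Er_rs FF s x)).symm
            · rw [res_getD w (by omega)]
              refine (hw.2 _ _ ⟨s + 1, ?_⟩).symm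
              have h00 : rt (Sg FF s).1 0 = 0 := rs_zero FF s
              rw [hst x (by omega), hst 0 (by omega), h00, fm_lt (show 0 < _ by omega)]
              rcases (not_lt.1 h2).lt_or_eq with h4 | h4
              · exact fm_gt h4
              · rw [← h4, fm_eq]
          rw [← this]
          exact hW
        · simp only [h1, if_true, h0, if_false, hA] at hc
          omega
      · have h2 : ct (Sg FF (s + 1)) (ac FF s) = 1 := (stage_new h1).2
        rw [h, h2] at hc
        omega

theorem stable {FF : FS} (hno : ∀ j, ¬ ∃ g : ℕ → ℕ, Computable g ∧ ∀ y, ¬ FF.F j y (g y))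
    (i : ℕ) : ∃ s1, Free FF i s1 ∧ (∀ s, s1 ≤ s → i < ac FF s) ∧
      ∀ s, s1 ≤ s → ct (Sg FF s) i = ct (Sg FF s1) i := by
  obtain ⟨s0, h0⟩ := stab hno i
  have hf := free_of FF (fun s hs => (h0 s hs).le)
  refine ⟨s0 + 1, hf, fun s hs => h0 s (by omega), fun s hs => ?_⟩
  induction s, hs using Nat.le_induction with
  | base => rfl
  | succ s hs ih => rw [ct_succ_lt FF (h0 s (by omega)), ih]

theorem rprop {FF : FS} (hno : ∀ j, ¬ ∃ g : ℕ → ℕ, Computable g ∧ ∀ y, ¬ FF.F j y (g y)) :
    RProp (Er FF) := by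
  intro W hW
  obtain ⟨e, he⟩ := ce_index hW
  obtain ⟨s1, hf, hac, -⟩ := stable hno (Nat.pair 0 e)
  obtain ⟨ℓ, hℓ⟩ : ∃ ℓ, ℓ = th (Sg FF s1) (Nat.pair 0 e) := ⟨_, rfl⟩
  have hth : ∀ s, s1 ≤ s → th (Sg FF s) (Nat.pair 0 e) = ℓ := fun s hs => by
    rw [hf.th s hs, hℓ]
  have h0 : (Nat.pair 0 e).unpair.1 = 0 := by simp
  have he2 : (Nat.pair 0 e).unpair.2 = e := by simp
  refine ⟨ℓ, by rw [hℓ]; exact (good FF s1).th2 _ (hf.len s1 le_rfl), ?_⟩
  by_cases hroot : ∀ s, s1 ≤ s → rs FF s ℓ = ℓ
  · right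
    have hlrℓ : lr FF ℓ = ℓ := by
      obtain ⟨s0, h1⟩ := lr_spec FF ℓ
      rw [← h1 _ (le_max_left s0 s1)]
      exact hroot _ (le_max_right _ _)
    refine ⟨fun z => if lr FF z < ℓ + 1 then lr FF z else 0, ⟨fun z => ?_, fun z z' h => ?_⟩,
      fun z hz => ?_, fun a ha m hWm => ?_⟩
    · beta_reduce
      split_ifs with h
      · exact h
      · omega
    · beta_reduce
      rw [(Er_iff FF z z').1 h]
    · beta_reduce at hz
      rw [Er_iff, hlrℓ]
      have h2 : 2 ≤ ℓ := by rw [hℓ]; exact (good FF s1).th2 _ (hf.len s1 le_rfl)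
      split_ifs at hz with h
      · exact hz
      · omega
    · obtain ⟨s2, h2⟩ := (he _).1 hWm
      obtain ⟨s3, h3⟩ := lr_bounded FF m
      obtain ⟨s, hs⟩ : ∃ s, s = max (max s1 m) (max s2 s3) := ⟨_, rfl⟩
      have k1 : s1 ≤ s := by rw [hs]; exact (le_max_left _ _).trans (le_max_left _ _)
      have k2 : m ≤ s := by rw [hs]; exact (le_max_right _ _).trans (le_max_left _ _)
      have k3 : s2 ≤ s := by rw [hs]; exact (le_max_left _ _).trans (le_max_right _ _)
      have k4 : s3 ≤ s := by rw [hs]; exact (le_max_right _ _).trans (le_max_right _ _)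
      apply ac_not_att FF (hac s k1)
      left
      refine ⟨h0, ?_⟩
      unfold AtR
      rw [hth s k1, he2]
      refine ⟨hroot s k1, a, ha, m, by omega, ?_⟩
      have : cs (Sg FF s).1 (ℓ + 1) (List.range (ℓ + 1)) m =
          res (fun z => if lr FF z < ℓ + 1 then lr FF z else 0) m := by
        unfold cs
        refine res_congr (fun z hz => ?_)
        rw [cf_range]
        have h4 : rt (Sg FF s).1 z = lr FF z := h3 s k4 z hz
        rw [h4]
      rw [this]
      exact We_mono k3 h2
  · left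
    push Not at hroot
    obtain ⟨s, hs, hne⟩ := hroot
    rcases inv_R FF s (Nat.pair 0 e) (hf.len s hs) h0 with h1 | h1
    · rw [hth s hs] at h1
      exact absurd h1 hne
    · rw [hth s hs, he2] at h1
      obtain ⟨a, γ, h2, h3, h4, h5⟩ := h1
      exact ⟨a, γ, h2, (he _).2 h3, h4, h5⟩

theorem qprop {FF : FS} (hno : ∀ j, ¬ ∃ g : ℕ → ℕ, Computable g ∧ ∀ y, ¬ FF.F j y (g y))
    (j : ℕ) : QProp (Er FF) (FF.F j) := by
  classical
  intro k A hA
  obtain ⟨e, he⟩ := ce_index hA
  obtain ⟨i, hi⟩ : ∃ i, i = Nat.pair (j + 1) (Nat.pair k e) := ⟨_, rfl⟩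
  have hi1 : i.unpair.1 = j + 1 := by rw [hi]; simp
  have hik : i.unpair.2.unpair.1 = k := by rw [hi]; simp
  have hie : i.unpair.2.unpair.2 = e := by rw [hi]; simp
  have h0 : ¬ i.unpair.1 = 0 := by omega
  have hj : i.unpair.1 - 1 = j := by omega
  obtain ⟨s1, hf, hac, hct⟩ := stable hno i
  obtain ⟨ℓ, hℓ⟩ : ∃ ℓ, ℓ = th (Sg FF s1) i := ⟨_, rfl⟩
  have hth : ∀ s, s1 ≤ s → th (Sg FF s) i = ℓ := fun s hs => by rw [hf.th s hs, hℓ]
  have hℓ2 : 2 ≤ ℓ := by rw [hℓ]; exact (good FF s1).th2 _ (hf.len s1 le_rfl)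
  by_cases hc0 : ct (Sg FF s1) i = 0
  · left
    intro w hw
    have := inv_Q FF s1 i (hf.len s1 le_rfl) h0 hc0
    rw [hj, hik, hie] at this
    obtain ⟨m, y, z, h1, h2⟩ := this w hw
    exact ⟨m, y, z, (he _).2 h1, h2⟩
  · right
    -- at every stage some pattern has no computation
    have h1 : ∀ s, s1 ≤ s → ∃ p ∈ strs k ℓ, ∃ y < ct (Sg FF s1) i,
        ¬ Cv s e (Sg FF s).1 ℓ p y := by
      intro s hs
      have hna := ac_not_att FF (hac s hs)
      unfold Att at hna
      push Not at hna
      have h2 := hna.2 h0 (by rw [hct s hs]; exact hc0)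
      have h3 := h2.2
      unfold ACv at h3
      push Not at h3
      obtain ⟨p, hp, y, hy, h4⟩ := h3
      rw [hik, hth s hs] at hp
      rw [hct s hs] at hy
      rw [hie, hth s hs] at h4
      exact ⟨p, hp, y, hy, h4⟩
    -- pigeonhole
    have h2 : ∃ p ∈ strs k ℓ, ∃ y < ct (Sg FF s1) i, ∀ N, ∃ s, N ≤ s ∧ s1 ≤ s ∧
        ¬ Cv s e (Sg FF s).1 ℓ p y := by
      by_contra hcon
      push Not at hcon
      have h3 : ∀ p ∈ strs k ℓ, ∃ N, ∀ u, N ≤ u → (∀ y < ct (Sg FF s1) i,
          s1 ≤ u → Cv u e (Sg FF u).1 ℓ p y) := by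
        intro p hp
        have h4 : ∀ y ∈ List.range (ct (Sg FF s1) i), ∃ N, ∀ u, N ≤ u →
            (s1 ≤ u → Cv u e (Sg FF u).1 ℓ p y) := by
          intro y hy
          obtain ⟨N, hN⟩ := hcon p hp y (List.mem_range.1 hy)
          exact ⟨N, fun u hu hs => hN u hu hs⟩
        obtain ⟨N, hN⟩ := list_eventually _ h4
        exact ⟨N, fun u hu y hy => hN y (List.mem_range.2 hy) u hu⟩
      obtain ⟨N, hN⟩ := list_eventually _ h3
      obtain ⟨p, hp, y, hy, h5⟩ := h1 (max N s1) (le_max_right _ _)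
      exact h5 (hN p hp _ (le_max_left _ _) y hy (le_max_right _ _))
    obtain ⟨p, hp, y, hy, hinf⟩ := h2
    obtain ⟨hpl, hpk⟩ := mem_strs.1 hp
    have hget : ∀ r, r < ℓ → p.getD r 0 < k := by
      intro r hr
      apply hpk
      rw [List.getD_eq_getElem?_getD, List.getElem?_eq_getElem (by omega)]
      simp
    refine ⟨fun z => if lr FF z < ℓ then p.getD (lr FF z) 0 else p.getD 0 0,
      ⟨fun z => ?_, fun z z' h => ?_⟩, y, fun m z hAm => ?_⟩
    · beta_reduce
      split_ifs with h
      · exact hget _ h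
      · exact hget 0 (by omega)
    · beta_reduce
      rw [(Er_iff FF z z').1 h]
    · obtain ⟨s2, h2⟩ := (he _).1 hAm
      obtain ⟨s3, h3⟩ := lr_bounded FF m
      obtain ⟨s, hs, -, hn⟩ := hinf (max (max z m) (max s2 s3))
      have k1 : z ≤ s := ((le_max_left _ _).trans (le_max_left _ _)).trans hs
      have k2 : m ≤ s := ((le_max_right _ _).trans (le_max_left _ _)).trans hs
      have k3 : s2 ≤ s := ((le_max_left _ _).trans (le_max_right _ _)).trans hs
      have k4 : s3 ≤ s := ((le_max_right _ _).trans (le_max_right _ _)).trans hs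
      apply hn
      refine ⟨m, by omega, z, by omega, ?_⟩
      have : cs (Sg FF s).1 ℓ p m =
          res (fun z => if lr FF z < ℓ then p.getD (lr FF z) 0 else p.getD 0 0) m := by
        unfold cs
        refine res_congr (fun x hx => ?_)
        unfold cf
        have h4 : rt (Sg FF s).1 x = lr FF x := h3 s k4 x hx
        rw [h4]
      rw [this]
      exact We_mono k3 h2

theorem ENG : ENG_stmt := by
  classical
  intro F hF hno
  obtain ⟨D, hD, hA, mD⟩ := S1.mono hF
  have hres : Primrec (fun k => res (fun _ => 0) k) :=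
    Primrec.list_map Primrec.list_range (Primrec.const 0).to₂
  let FF : FS :=
    { F := F
      S := fun s a => D (res (fun _ => 0) s) a
      dec := fun _ _ => Classical.dec _
      prim := hD.comp (hres.comp Primrec.fst) Primrec.snd
      mono := fun s s' a hs h => mD a s s' hs h
      iff := fun j y z => hA (j, y, z) }
  exact ⟨Er FF, Er_equiv FF, Er_ce FF, Er_ne FF, rprop (FF := FF) hno,
    fun j => qprop (FF := FF) hno j⟩

end Pool.Agent.helper63.Dg4
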