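import Pool.Agent.helper63.Dg4.Spec

/-!
# The finite-injury construction: definitions
-/

namespace Pool.Agent.helper63.Dg4

open Encodable Pool.Agent.helper63.Diag

set_option maxHeartbeats 400000

/-- stage `s` of the `e`-th computably enumerable set -/
def We (s e a : ℕ) : Prop :=
  (Nat.Partrec.Code.evaln s (Denumerable.ofNat Nat.Partrec.Code e) a).isSome = true

instance (s e a : ℕ) : Decidable (We s e a) := by unfold We; infer_instance

theorem We_mono {s s' e a : ℕ} (h : s ≤ s') (hw : We s e a) : We s' e a := by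
  unfold We at *
  obtain ⟨v, hv⟩ := Option.isSome_iff_exists.1 hw
  rw [Nat.Partrec.Code.evaln_mono h hv]
  rfl

theorem prim_We : PrimrecPred (fun q : (ℕ × ℕ) × ℕ => We q.1.1 q.1.2 q.2) := by
  unfold We
  have h1 : Primrec (fun q : (ℕ × ℕ) × ℕ =>
      (Nat.Partrec.Code.evaln q.1.1 (Denumerable.ofNat Nat.Partrec.Code q.1.2) q.2).isSome) :=
    Primrec.option_isSome.comp (Nat.Partrec.Code.primrec_evaln.comp
      (Primrec.pair (Primrec.pair (Primrec.fst.comp Primrec.fst)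
        ((Primrec.ofNat _).comp (Primrec.snd.comp Primrec.fst))) Primrec.snd))
  exact Primrec.eq.comp h1 (Primrec.const true)

/-- every c.e. set has an index -/
theorem ce_index {α : Type} [Primcodable α] {A : α → Prop} (h : CE A) :
    ∃ e, ∀ a, A a ↔ ∃ s, We s e (encode a) := by
  classical
  obtain ⟨D, hD, hA⟩ := h
  have hres : Primrec (fun k => res (fun _ => 0) k) :=
    Primrec.list_map Primrec.list_range (Primrec.const 0).to₂
  have hD' : PrimrecRel (fun (a : α) (k : ℕ) => D (res (fun _ => 0) k) a) :=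
    hD.comp (hres.comp Primrec.snd) Primrec.fst
  have hf : Partrec (fun a : α => Nat.rfind (fun k => Part.some
      (decide (D (res (fun _ => 0) k) a)))) := by
    refine Partrec.rfind ?_
    have h2 : Computable (fun p : α × ℕ => decide (D (res (fun _ => 0) p.2) p.1)) :=
      (PrimrecRel.decide hD').to_comp
    exact h2.partrec
  obtain ⟨c, hc⟩ := Nat.Partrec.Code.exists_code.1 hf
  refine ⟨encode c, fun a => ?_⟩
  rw [hA a]
  have key : (∃ v, v ∈ Nat.Partrec.Code.eval c (encode a)) ↔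
      ∃ k, D (res (fun _ => 0) k) a := by
    rw [hc]
    simp only [encodek, Part.coe_some, Part.bind_some, Part.mem_map_iff]
    constructor
    · rintro ⟨v, k, hk, -⟩
      have := (Nat.mem_rfind.1 hk).1
      exact ⟨k, by simpa using this⟩
    · rintro ⟨k, hk⟩
      have hdom : (Nat.rfind (fun k => Part.some
          (decide (D (res (fun _ => 0) k) a)))).Dom := by
        rw [Nat.rfind_dom]
        exact ⟨k, by simpa using hk, fun _ => trivial⟩
      exact ⟨_, _, Part.get_mem hdom, rfl⟩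
  rw [← key]
  unfold We
  rw [Denumerable.ofNat_encode]
  constructor
  · rintro ⟨v, hv⟩
    obtain ⟨s, hs⟩ := Nat.Partrec.Code.evaln_complete.1 hv
    exact ⟨s, by rw [Option.mem_def.1 hs]; rfl⟩
  · rintro ⟨s, hs⟩
    obtain ⟨v, hv⟩ := Option.isSome_iff_exists.1 hs
    exact ⟨v, Nat.Partrec.Code.evaln_sound (Option.mem_def.2 hv)⟩

theorem primrec2_strs : Primrec₂ strs := by
  have : Primrec (fun p : ℕ × ℕ => (Nat.rec [[]] (fun _ IH => IH.flatMap
      (fun ρ => (List.range p.1).map (fun c => ρ ++ [c]))) p.2 : List (List ℕ))) := by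
    refine Primrec.nat_rec' (f := fun p : ℕ × ℕ => p.2) (g := fun _ => [[]])
      (h := fun (p : ℕ × ℕ) (q : ℕ × List (List ℕ)) => q.2.flatMap
        (fun ρ => (List.range p.1).map (fun c => ρ ++ [c]))) Primrec.snd (Primrec.const _) ?_
    refine Primrec.list_flatMap (Primrec.snd.comp Primrec.snd) ?_
    refine Primrec.list_map (Primrec.list_range.comp
      (Primrec.fst.comp (Primrec.fst.comp Primrec.fst))) ?_
    exact Primrec.list_append.comp (Primrec.snd.comp Primrec.fst)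
      (Primrec.list_cons.comp Primrec.snd (Primrec.const []))
  refine this.of_eq ?_
  rintro ⟨n, k⟩
  show _ = strs n k
  induction k with
  | zero => rfl
  | succ k ih => simp only [strs, ← ih]

/-- the root of `z` in the table `R` -/
def rt (R : List ℕ) (z : ℕ) : ℕ := (R[z]?).getD z

theorem prim_rt : Primrec₂ rt := by
  have : Primrec (fun p : List ℕ × ℕ => (p.1[p.2]?).getD p.2) :=
    Primrec.option_getD.comp (Primrec.list_getElem?.comp Primrec.fst Primrec.snd) Primrec.snd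
  exact this

/-- the colouring with pattern `p` on the roots below `ℓ`, and the colour of `0` elsewhere -/
def cf (R : List ℕ) (ℓ : ℕ) (p : List ℕ) (z : ℕ) : ℕ :=
  if rt R z < ℓ then p.getD (rt R z) 0 else p.getD 0 0

theorem prim_cf : Primrec (fun q : ((List ℕ × ℕ) × List ℕ) × ℕ => cf q.1.1.1 q.1.1.2 q.1.2 q.2) := by
  unfold cf
  have hr : Primrec (fun q : ((List ℕ × ℕ) × List ℕ) × ℕ => rt q.1.1.1 q.2) :=
    prim_rt.comp (Primrec.fst.comp (Primrec.fst.comp Primrec.fst)) Primrec.snd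
  refine Primrec.ite (Primrec.nat_lt.comp hr (Primrec.snd.comp (Primrec.fst.comp Primrec.fst)))
    ((Primrec.list_getD 0).comp (Primrec.snd.comp Primrec.fst) hr)
    ((Primrec.list_getD 0).comp (Primrec.snd.comp Primrec.fst) (Primrec.const 0))

/-- the first `m` values of this colouring -/
def cs (R : List ℕ) (ℓ : ℕ) (p : List ℕ) (m : ℕ) : List ℕ := res (cf R ℓ p) m

theorem prim_cs : Primrec (fun q : ((List ℕ × ℕ) × List ℕ) × ℕ => cs q.1.1.1 q.1.1.2 q.1.2 q.2) := by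
  unfold cs res
  refine Primrec.list_map (Primrec.list_range.comp Primrec.snd) ?_
  exact prim_cf.comp (g := fun w : (((List ℕ × ℕ) × List ℕ) × ℕ) × ℕ => (w.1.1, w.2))
    (Primrec.pair (Primrec.fst.comp Primrec.fst) Primrec.snd)

/-- the event of the requirement `R` with index `e` -/
def EvR (s e : ℕ) (R : List ℕ) (ℓ a : ℕ) : Prop :=
  ∃ m < s + 1, We s e (encode (ℓ, a, cs R (ℓ + 1) (List.range (ℓ + 1)) m))

instance (s e : ℕ) (R : List ℕ) (ℓ a : ℕ) : Decidable (EvR s e R ℓ a) := by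
  unfold EvR; infer_instance

theorem prim_EvR : PrimrecPred (fun q : ((ℕ × ℕ) × (List ℕ × ℕ)) × ℕ =>
    EvR q.1.1.1 q.1.1.2 q.1.2.1 q.1.2.2 q.2) := by
  unfold EvR
  refine PRexlt (R := fun (q : ((ℕ × ℕ) × (List ℕ × ℕ)) × ℕ) (m : ℕ) =>
    We q.1.1.1 q.1.1.2 (encode (q.1.2.2, q.2, cs q.1.2.1 (q.1.2.2 + 1)
      (List.range (q.1.2.2 + 1)) m))) ?_
    (Primrec.succ.comp (Primrec.fst.comp (Primrec.fst.comp Primrec.fst)))
  have hs : Primrec (fun w : (((ℕ × ℕ) × (List ℕ × ℕ)) × ℕ) × ℕ => w.1.1.1.1) :=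
    Primrec.fst.comp (Primrec.fst.comp (Primrec.fst.comp Primrec.fst))
  have he : Primrec (fun w : (((ℕ × ℕ) × (List ℕ × ℕ)) × ℕ) × ℕ => w.1.1.1.2) :=
    Primrec.snd.comp (Primrec.fst.comp (Primrec.fst.comp Primrec.fst))
  have hR : Primrec (fun w : (((ℕ × ℕ) × (List ℕ × ℕ)) × ℕ) × ℕ => w.1.1.2.1) :=
    Primrec.fst.comp (Primrec.snd.comp (Primrec.fst.comp Primrec.fst))
  have hl : Primrec (fun w : (((ℕ × ℕ) × (List ℕ × ℕ)) × ℕ) × ℕ => w.1.1.2.2) :=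
    Primrec.snd.comp (Primrec.snd.comp (Primrec.fst.comp Primrec.fst))
  have ha : Primrec (fun w : (((ℕ × ℕ) × (List ℕ × ℕ)) × ℕ) × ℕ => w.1.2) :=
    Primrec.snd.comp Primrec.fst
  have hl1 : Primrec (fun w : (((ℕ × ℕ) × (List ℕ × ℕ)) × ℕ) × ℕ => w.1.1.2.2 + 1) :=
    Primrec.succ.comp hl
  have hc : Primrec (fun w : (((ℕ × ℕ) × (List ℕ × ℕ)) × ℕ) × ℕ =>
      cs w.1.1.2.1 (w.1.1.2.2 + 1) (List.range (w.1.1.2.2 + 1)) w.2) :=
    prim_cs.comp (g := fun w : (((ℕ × ℕ) × (List ℕ × ℕ)) × ℕ) × ℕ =>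
      (((w.1.1.2.1, w.1.1.2.2 + 1), List.range (w.1.1.2.2 + 1)), w.2))
      (Primrec.pair (Primrec.pair (Primrec.pair hR hl1) (Primrec.list_range.comp hl1))
        Primrec.snd)
  exact prim_We.comp (f := fun w : (((ℕ × ℕ) × (List ℕ × ℕ)) × ℕ) × ℕ =>
    ((w.1.1.1.1, w.1.1.1.2), encode (w.1.1.2.2, w.1.2, cs w.1.1.2.1 (w.1.1.2.2 + 1)
      (List.range (w.1.1.2.2 + 1)) w.2)))
    (Primrec.pair (Primrec.pair hs he) (Primrec.encode.comp (Primrec.pair hl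
      (Primrec.pair ha hc))))

/-- convergence at `y` for the pattern `p` -/
def Cv (s e : ℕ) (R : List ℕ) (ℓ : ℕ) (p : List ℕ) (y : ℕ) : Prop :=
  ∃ m < s + 1, ∃ z < s + 1, We s e (encode (cs R ℓ p m, y, z))

instance (s e : ℕ) (R : List ℕ) (ℓ : ℕ) (p : List ℕ) (y : ℕ) : Decidable (Cv s e R ℓ p y) := by
  unfold Cv; infer_instance

/-- the type of the parameters -/
abbrev Pm : Type := ((ℕ × ℕ) × (List ℕ × ℕ)) × List ℕ

theorem prim_Wq : PrimrecPred (fun q : Pm × (ℕ × (ℕ × ℕ)) =>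
    We q.1.1.1.1 q.1.1.1.2 (encode (cs q.1.1.2.1 q.1.1.2.2 q.1.2 q.2.1, q.2.2.1, q.2.2.2))) := by
  have hs : Primrec (fun q : Pm × (ℕ × (ℕ × ℕ)) => q.1.1.1.1) :=
    Primrec.fst.comp (Primrec.fst.comp (Primrec.fst.comp Primrec.fst))
  have he : Primrec (fun q : Pm × (ℕ × (ℕ × ℕ)) => q.1.1.1.2) :=
    Primrec.snd.comp (Primrec.fst.comp (Primrec.fst.comp Primrec.fst))
  have hR : Primrec (fun q : Pm × (ℕ × (ℕ × ℕ)) => q.1.1.2.1) :=
    Primrec.fst.comp (Primrec.snd.comp (Primrec.fst.comp Primrec.fst))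
  have hl : Primrec (fun q : Pm × (ℕ × (ℕ × ℕ)) => q.1.1.2.2) :=
    Primrec.snd.comp (Primrec.snd.comp (Primrec.fst.comp Primrec.fst))
  have hp : Primrec (fun q : Pm × (ℕ × (ℕ × ℕ)) => q.1.2) := Primrec.snd.comp Primrec.fst
  have hm : Primrec (fun q : Pm × (ℕ × (ℕ × ℕ)) => q.2.1) := Primrec.fst.comp Primrec.snd
  have hy : Primrec (fun q : Pm × (ℕ × (ℕ × ℕ)) => q.2.2.1) :=
    Primrec.fst.comp (Primrec.snd.comp Primrec.snd)
  have hz : Primrec (fun q : Pm × (ℕ × (ℕ × ℕ)) => q.2.2.2) :=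
    Primrec.snd.comp (Primrec.snd.comp Primrec.snd)
  have hc : Primrec (fun q : Pm × (ℕ × (ℕ × ℕ)) => cs q.1.1.2.1 q.1.1.2.2 q.1.2 q.2.1) :=
    prim_cs.comp (g := fun q : Pm × (ℕ × (ℕ × ℕ)) => (((q.1.1.2.1, q.1.1.2.2), q.1.2), q.2.1))
      (Primrec.pair (Primrec.pair (Primrec.pair hR hl) hp) hm)
  exact prim_We.comp (f := fun q : Pm × (ℕ × (ℕ × ℕ)) =>
    ((q.1.1.1.1, q.1.1.1.2), encode (cs q.1.1.2.1 q.1.1.2.2 q.1.2 q.2.1, q.2.2.1, q.2.2.2)))
    (Primrec.pair (Primrec.pair hs he) (Primrec.encode.comp (Primrec.pair hc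
      (Primrec.pair hy hz))))

theorem prim_Cv : PrimrecPred (fun q : Pm × ℕ =>
    Cv q.1.1.1.1 q.1.1.1.2 q.1.1.2.1 q.1.1.2.2 q.1.2 q.2) := by
  unfold Cv
  have hs : Primrec (fun q : Pm × ℕ => q.1.1.1.1 + 1) :=
    Primrec.succ.comp (Primrec.fst.comp (Primrec.fst.comp (Primrec.fst.comp Primrec.fst)))
  refine PRexlt (R := fun (q : Pm × ℕ) (m : ℕ) => ∃ z < q.1.1.1.1 + 1,
    We q.1.1.1.1 q.1.1.1.2 (encode (cs q.1.1.2.1 q.1.1.2.2 q.1.2 m, q.2, z))) ?_ hs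
  refine PRexlt (R := fun (w : (Pm × ℕ) × ℕ) (z : ℕ) =>
    We w.1.1.1.1.1 w.1.1.1.1.2 (encode (cs w.1.1.1.2.1 w.1.1.1.2.2 w.1.1.2 w.2, w.1.2, z))) ?_
    (hs.comp Primrec.fst)
  exact prim_Wq.comp (f := fun u : ((Pm × ℕ) × ℕ) × ℕ => (u.1.1.1, (u.1.2, (u.1.1.2, u.2))))
    (Primrec.pair (Primrec.fst.comp (Primrec.fst.comp Primrec.fst))
      (Primrec.pair (Primrec.snd.comp Primrec.fst)
        (Primrec.pair (Primrec.snd.comp (Primrec.fst.comp Primrec.fst)) Primrec.snd)))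

/-- The forbidden relations, by stages. -/
structure FS where
  F : ℕ → ℕ → ℕ → Prop
  S : ℕ → ℕ × ℕ × ℕ → Prop
  dec : DecidableRel S
  prim : PrimrecRel S
  mono : ∀ s s' a, s ≤ s' → S s a → S s' a
  iff : ∀ j y z, F j y z ↔ ∃ s, S s (j, y, z)

attribute [instance] FS.dec

variable (FF : FS)

/-- the pattern `p` is refuted -/
def Rf (j s e : ℕ) (R : List ℕ) (ℓ : ℕ) (p : List ℕ) : Prop :=
  ∃ m < s + 1, ∃ y < s + 1, ∃ z < s + 1, We s e (encode (cs R ℓ p m, y, z)) ∧ FF.S s (j, y, z)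

instance (j s e : ℕ) (R : List ℕ) (ℓ : ℕ) (p : List ℕ) : Decidable (Rf FF j s e R ℓ p) := by
  unfold Rf; infer_instance

theorem prim_Rf : PrimrecPred (fun q : ℕ × Pm =>
    Rf FF q.1 q.2.1.1.1 q.2.1.1.2 q.2.1.2.1 q.2.1.2.2 q.2.2) := by
  unfold Rf
  have hs : Primrec (fun q : ℕ × Pm => q.2.1.1.1 + 1) :=
    Primrec.succ.comp (Primrec.fst.comp (Primrec.fst.comp (Primrec.fst.comp Primrec.snd)))
  refine PRexlt (R := fun (q : ℕ × Pm) (m : ℕ) => ∃ y < q.2.1.1.1 + 1, ∃ z < q.2.1.1.1 + 1,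
    We q.2.1.1.1 q.2.1.1.2 (encode (cs q.2.1.2.1 q.2.1.2.2 q.2.2 m, y, z)) ∧
      FF.S q.2.1.1.1 (q.1, y, z)) ?_ hs
  refine PRexlt (R := fun (w : (ℕ × Pm) × ℕ) (y : ℕ) => ∃ z < w.1.2.1.1.1 + 1,
    We w.1.2.1.1.1 w.1.2.1.1.2 (encode (cs w.1.2.1.2.1 w.1.2.1.2.2 w.1.2.2 w.2, y, z)) ∧
      FF.S w.1.2.1.1.1 (w.1.1, y, z)) ?_ (hs.comp Primrec.fst)
  refine PRexlt (R := fun (u : ((ℕ × Pm) × ℕ) × ℕ) (z : ℕ) =>
    We u.1.1.2.1.1.1 u.1.1.2.1.1.2 (encode (cs u.1.1.2.1.2.1 u.1.1.2.1.2.2 u.1.1.2.2 u.1.2,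
      u.2, z)) ∧ FF.S u.1.1.2.1.1.1 (u.1.1.1, u.2, z)) ?_
    (hs.comp (Primrec.fst.comp Primrec.fst))
  refine PrimrecPred.and ?_ ?_
  · exact prim_Wq.comp (f := fun v : (((ℕ × Pm) × ℕ) × ℕ) × ℕ =>
      (v.1.1.1.2, (v.1.1.2, (v.1.2, v.2))))
      (Primrec.pair (Primrec.snd.comp (Primrec.fst.comp (Primrec.fst.comp Primrec.fst)))
        (Primrec.pair (Primrec.snd.comp (Primrec.fst.comp Primrec.fst))
          (Primrec.pair (Primrec.snd.comp Primrec.fst) Primrec.snd)))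
  · exact FF.prim.comp (f := fun v : (((ℕ × Pm) × ℕ) × ℕ) × ℕ => v.1.1.1.2.1.1.1)
      (g := fun v : (((ℕ × Pm) × ℕ) × ℕ) × ℕ => (v.1.1.1.1, (v.1.2, v.2)))
      (Primrec.fst.comp (Primrec.fst.comp (Primrec.fst.comp (Primrec.snd.comp
        (Primrec.fst.comp (Primrec.fst.comp Primrec.fst))))))
      (Primrec.pair (Primrec.fst.comp (Primrec.fst.comp (Primrec.fst.comp Primrec.fst)))
        (Primrec.pair (Primrec.snd.comp Primrec.fst) Primrec.snd))

end Pool.Agent.helper63.Dg4
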