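import Pool.Agent.helper63.Dg4.Eng1

/-!
# The finite-injury construction: the stages
-/

namespace Pool.Agent.helper63.Dg4

open Encodable Pool.Agent.helper63.Diag

set_option maxHeartbeats 400000

variable (FF : FS)

/-- states: a table of roots and a list of pairs (threshold, counter) -/
abbrev State : Type := List ℕ × List (ℕ × ℕ)

/-- threshold of the `i`-th requirement -/
def th (S : State) (i : ℕ) : ℕ := (S.2.getD i (0, 0)).1

/-- counter of the `i`-th requirement -/
def ct (S : State) (i : ℕ) : ℕ := (S.2.getD i (0, 0)).2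

theorem prim_th : Primrec₂ th :=
  Primrec.fst.comp ((Primrec.list_getD (0, 0)).comp (Primrec.snd.comp Primrec.fst) Primrec.snd)

theorem prim_ct : Primrec₂ ct :=
  Primrec.snd.comp ((Primrec.list_getD (0, 0)).comp (Primrec.snd.comp Primrec.fst) Primrec.snd)

/-- the requirement `R` needs attention -/
def AtR (s i : ℕ) (S : State) : Prop :=
  rt S.1 (th S i) = th S i ∧ ∃ a < th S i, EvR s i.unpair.2 S.1 (th S i) a

/-- all patterns are refuted -/
def ARf (s i : ℕ) (S : State) : Prop :=
  ∀ p ∈ strs i.unpair.2.unpair.1 (th S i),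
    Rf FF (i.unpair.1 - 1) s i.unpair.2.unpair.2 S.1 (th S i) p

/-- all patterns have computations below the counter -/
def ACv (s i : ℕ) (S : State) : Prop :=
  ∀ p ∈ strs i.unpair.2.unpair.1 (th S i), ∀ y < ct S i,
    Cv s i.unpair.2.unpair.2 S.1 (th S i) p y

/-- the `i`-th requirement needs attention -/
def Att (s i : ℕ) (S : State) : Prop :=
  (i.unpair.1 = 0 ∧ AtR s i S) ∨
    (¬ i.unpair.1 = 0 ∧ ¬ ct S i = 0 ∧ (ARf FF s i S ∨ ACv s i S))

instance (s i : ℕ) (S : State) : Decidable (AtR s i S) := by unfold AtR; infer_instance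
instance (s i : ℕ) (S : State) : Decidable (ARf FF s i S) := by unfold ARf; infer_instance
instance (s i : ℕ) (S : State) : Decidable (ACv s i S) := by unfold ACv; infer_instance
instance (s i : ℕ) (S : State) : Decidable (Att FF s i S) := by unfold Att; infer_instance

/-- the type of the arguments `(s, S), i` -/
abbrev TA : Type := (ℕ × State) × ℕ

theorem p_s : Primrec (fun q : TA => q.1.1) := Primrec.fst.comp Primrec.fst
theorem p_S : Primrec (fun q : TA => q.1.2) := Primrec.snd.comp Primrec.fst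
theorem p_i : Primrec (fun q : TA => q.2) := Primrec.snd
theorem p_R : Primrec (fun q : TA => q.1.2.1) := Primrec.fst.comp p_S
theorem p_th : Primrec (fun q : TA => th q.1.2 q.2) := prim_th.comp p_S p_i
theorem p_ct : Primrec (fun q : TA => ct q.1.2 q.2) := prim_ct.comp p_S p_i
theorem p_i1 : Primrec (fun q : TA => q.2.unpair.1) := Primrec.fst.comp (Primrec.unpair.comp p_i)
theorem p_i2 : Primrec (fun q : TA => q.2.unpair.2) := Primrec.snd.comp (Primrec.unpair.comp p_i)
theorem p_k : Primrec (fun q : TA => q.2.unpair.2.unpair.1) :=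
  Primrec.fst.comp (Primrec.unpair.comp p_i2)
theorem p_e : Primrec (fun q : TA => q.2.unpair.2.unpair.2) :=
  Primrec.snd.comp (Primrec.unpair.comp p_i2)

theorem prim_AtR : PrimrecPred (fun q : TA => AtR q.1.1 q.2 q.1.2) := by
  unfold AtR
  refine PrimrecPred.and (Primrec.eq.comp (prim_rt.comp p_R p_th) p_th) ?_
  refine PRexlt (R := fun (q : TA) (a : ℕ) => EvR q.1.1 q.2.unpair.2 q.1.2.1 (th q.1.2 q.2) a) ?_
    p_th
  exact prim_EvR.comp (f := fun w : TA × ℕ =>
    (((w.1.1.1, w.1.2.unpair.2), (w.1.1.2.1, th w.1.1.2 w.1.2)), w.2))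
    (Primrec.pair (Primrec.pair (Primrec.pair (p_s.comp Primrec.fst) (p_i2.comp Primrec.fst))
      (Primrec.pair (p_R.comp Primrec.fst) (p_th.comp Primrec.fst))) Primrec.snd)

theorem prim_strsL : Primrec (fun q : TA => strs q.2.unpair.2.unpair.1 (th q.1.2 q.2)) :=
  primrec2_strs.comp p_k p_th

/-- the parameters of the requirement -/
def pm (q : TA) (p : List ℕ) : Pm :=
  (((q.1.1, q.2.unpair.2.unpair.2), (q.1.2.1, th q.1.2 q.2)), p)

theorem prim_pm : Primrec (fun w : TA × List ℕ => pm w.1 w.2) :=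
  Primrec.pair (Primrec.pair (Primrec.pair (p_s.comp Primrec.fst) (p_e.comp Primrec.fst))
    (Primrec.pair (p_R.comp Primrec.fst) (p_th.comp Primrec.fst))) Primrec.snd

theorem prim_ARf : PrimrecPred (fun q : TA => ARf FF q.1.1 q.2 q.1.2) := by
  unfold ARf
  refine PRall (R := fun (q : TA) (p : List ℕ) =>
    Rf FF (q.2.unpair.1 - 1) q.1.1 q.2.unpair.2.unpair.2 q.1.2.1 (th q.1.2 q.2) p) ?_ prim_strsL
  exact (prim_Rf FF).comp (f := fun w : TA × List ℕ => (w.1.2.unpair.1 - 1, pm w.1 w.2))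
    (Primrec.pair (Primrec.nat_sub.comp (p_i1.comp Primrec.fst) (Primrec.const 1)) prim_pm)

theorem prim_ACv : PrimrecPred (fun q : TA => ACv q.1.1 q.2 q.1.2) := by
  unfold ACv
  refine PRall (R := fun (q : TA) (p : List ℕ) => ∀ y < ct q.1.2 q.2,
    Cv q.1.1 q.2.unpair.2.unpair.2 q.1.2.1 (th q.1.2 q.2) p y) ?_ prim_strsL
  refine PRalllt (R := fun (w : TA × List ℕ) (y : ℕ) =>
    Cv w.1.1.1 w.1.2.unpair.2.unpair.2 w.1.1.2.1 (th w.1.1.2 w.1.2) w.2 y) ?_
    (p_ct.comp Primrec.fst)
  exact prim_Cv.comp (f := fun u : (TA × List ℕ) × ℕ => (pm u.1.1 u.1.2, u.2))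
    (Primrec.pair (prim_pm.comp Primrec.fst) Primrec.snd)

theorem prim_Att : PrimrecPred (fun q : TA => Att FF q.1.1 q.2 q.1.2) := by
  unfold Att
  have h0 : PrimrecPred (fun q : TA => q.2.unpair.1 = 0) :=
    Primrec.eq.comp p_i1 (Primrec.const 0)
  refine PrimrecPred.or (h0.and prim_AtR) (h0.not.and (PrimrecPred.and ?_ ?_))
  · exact PrimrecPred.not (Primrec.eq.comp p_ct (Primrec.const 0))
  · exact (prim_ARf FF).or prim_ACv

/-- the acting requirement: the least one which needs attention, or the length -/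
def ist (s : ℕ) (S : State) : ℕ :=
  Nat.findGreatest (fun i => ∀ i' < i, ¬ Att FF s i' S) S.2.length

theorem prim_ist : Primrec₂ (ist FF) := by
  have h : Primrec (fun q : ℕ × State => Nat.findGreatest
      (fun i => ∀ i' < i, ¬ Att FF q.1 i' q.2) q.2.2.length) := by
    refine Primrec.nat_findGreatest (Primrec.list_length.comp (Primrec.snd.comp Primrec.snd)) ?_
    refine PRalllt (R := fun (w : (ℕ × State) × ℕ) (i' : ℕ) => ¬ Att FF w.1.1 i' w.1.2) ?_
      Primrec.snd
    refine PrimrecPred.not ?_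
    exact (prim_Att FF).comp (f := fun u : ((ℕ × State) × ℕ) × ℕ => (u.1.1, u.2))
      (Primrec.pair (Primrec.fst.comp Primrec.fst) Primrec.snd)
  exact h

theorem ist_le (s : ℕ) (S : State) : ist FF s S ≤ S.2.length := Nat.findGreatest_le _

theorem ist_spec (s : ℕ) (S : State) : ∀ i' < ist FF s S, ¬ Att FF s i' S := by
  have := Nat.findGreatest_spec (P := fun i => ∀ i' < i, ¬ Att FF s i' S) (Nat.zero_le S.2.length)
    (fun i' hi' => absurd hi' (by omega))
  exact this

theorem ist_att {s : ℕ} {S : State} (h : ist FF s S < S.2.length) :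
    Att FF s (ist FF s S) S := by
  by_contra hcon
  have h1 : ¬ (∀ i' < ist FF s S + 1, ¬ Att FF s i' S) :=
    Nat.findGreatest_is_greatest (P := fun i => ∀ i' < i, ¬ Att FF s i' S)
      (Nat.lt_succ_self (ist FF s S)) h
  apply h1
  intro i' hi'
  rcases Nat.lt_succ_iff_lt_or_eq.1 hi' with h2 | h2
  · exact ist_spec FF s S i' h2
  · rw [h2]; exact hcon

/-- the target of the merging of a requirement `R` -/
def tgR (s i : ℕ) (S : State) : ℕ :=
  rt S.1 (Nat.findGreatest (fun a => a < th S i ∧ EvR s i.unpair.2 S.1 (th S i) a) (th S i))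

theorem prim_tgR : Primrec (fun q : TA => tgR q.1.1 q.2 q.1.2) := by
  unfold tgR
  refine prim_rt.comp p_R ?_
  refine Primrec.nat_findGreatest p_th ?_
  refine PrimrecPred.and (Primrec.nat_lt.comp Primrec.snd (p_th.comp Primrec.fst)) ?_
  exact prim_EvR.comp (f := fun w : TA × ℕ =>
    (((w.1.1.1, w.1.2.unpair.2), (w.1.1.2.1, th w.1.1.2 w.1.2)), w.2))
    (Primrec.pair (Primrec.pair (Primrec.pair (p_s.comp Primrec.fst) (p_i2.comp Primrec.fst))
      (Primrec.pair (p_R.comp Primrec.fst) (p_th.comp Primrec.fst))) Primrec.snd)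

/-- the threshold of the merging -/
def lo (s i : ℕ) (S : State) : ℕ :=
  if i < S.2.length ∧ (i.unpair.1 = 0 ∨ ARf FF s i S) then th S i else s + 2

/-- the target for the element at the threshold -/
def tg (s i : ℕ) (S : State) : ℕ :=
  if i < S.2.length ∧ i.unpair.1 = 0 then tgR s i S else 0

/-- the new pair of the acting requirement -/
def np (s i : ℕ) (S : State) : ℕ × ℕ :=
  if i < S.2.length then
    (if i.unpair.1 = 0 then (th S i, ct S i) else
      if ARf FF s i S then (th S i, 0) else (th S i, ct S i + 1))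
  else (s + 2, 1)

theorem p_len : PrimrecPred (fun q : TA => q.2 < q.1.2.2.length) :=
  Primrec.nat_lt.comp p_i (Primrec.list_length.comp (Primrec.snd.comp p_S))

theorem p_i0 : PrimrecPred (fun q : TA => q.2.unpair.1 = 0) :=
  Primrec.eq.comp p_i1 (Primrec.const 0)

theorem prim_lo : Primrec (fun q : TA => lo FF q.1.1 q.2 q.1.2) := by
  unfold lo
  exact Primrec.ite (p_len.and (p_i0.or (prim_ARf FF))) p_th
    (Primrec.succ.comp (Primrec.succ.comp p_s))

theorem prim_tg : Primrec (fun q : TA => tg q.1.1 q.2 q.1.2) := by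
  unfold tg
  exact Primrec.ite (p_len.and p_i0) prim_tgR (Primrec.const 0)

theorem prim_np : Primrec (fun q : TA => np FF q.1.1 q.2 q.1.2) := by
  unfold np
  refine Primrec.ite p_len (Primrec.ite p_i0 (Primrec.pair p_th p_ct) ?_) ?_
  · exact Primrec.ite (prim_ARf FF) (Primrec.pair p_th (Primrec.const 0))
      (Primrec.pair p_th (Primrec.succ.comp p_ct))
  · exact Primrec.pair (Primrec.succ.comp (Primrec.succ.comp p_s)) (Primrec.const 1)

/-- the map of the roots -/
def fm (ℓ t r : ℕ) : ℕ := if r < ℓ then r else if r = ℓ then t else 0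

/-- the new table -/
def co (s : ℕ) (R : List ℕ) (ℓ t : ℕ) : List ℕ :=
  (List.range (s + 2)).map (fun z => fm ℓ t (rt R z))

theorem prim_co : Primrec (fun q : (ℕ × List ℕ) × (ℕ × ℕ) => co q.1.1 q.1.2 q.2.1 q.2.2) := by
  unfold co
  refine Primrec.list_map (Primrec.list_range.comp (Primrec.succ.comp (Primrec.succ.comp
    (Primrec.fst.comp Primrec.fst)))) ?_
  unfold fm
  have hr : Primrec (fun w : ((ℕ × List ℕ) × (ℕ × ℕ)) × ℕ => rt w.1.1.2 w.2) :=
    prim_rt.comp (Primrec.snd.comp (Primrec.fst.comp Primrec.fst)) Primrec.snd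
  have hl : Primrec (fun w : ((ℕ × List ℕ) × (ℕ × ℕ)) × ℕ => w.1.2.1) :=
    Primrec.fst.comp (Primrec.snd.comp Primrec.fst)
  have ht : Primrec (fun w : ((ℕ × List ℕ) × (ℕ × ℕ)) × ℕ => w.1.2.2) :=
    Primrec.snd.comp (Primrec.snd.comp Primrec.fst)
  exact Primrec.ite (Primrec.nat_lt.comp hr hl) hr
    (Primrec.ite (Primrec.eq.comp hr hl) ht (Primrec.const 0))

/-- one stage -/
def stage (s : ℕ) (S : State) : State :=
  (co s S.1 (lo FF s (ist FF s S) S) (tg s (ist FF s S) S),
    S.2.take (ist FF s S) ++ [np FF s (ist FF s S) S])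

theorem prim_stage : Primrec₂ (stage FF) := by
  have hT : Primrec (fun q : ℕ × State => ((q, ist FF q.1 q.2) : TA)) :=
    Primrec.pair Primrec.id ((prim_ist FF).comp Primrec.fst Primrec.snd)
  have h1 : Primrec (fun q : ℕ × State => lo FF q.1 (ist FF q.1 q.2) q.2) := (prim_lo FF).comp hT
  have h2 : Primrec (fun q : ℕ × State => tg q.1 (ist FF q.1 q.2) q.2) := prim_tg.comp hT
  have h3 : Primrec (fun q : ℕ × State => np FF q.1 (ist FF q.1 q.2) q.2) := (prim_np FF).comp hT
  have h4 : Primrec (fun q : ℕ × State => co q.1 q.2.1 (lo FF q.1 (ist FF q.1 q.2) q.2)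
      (tg q.1 (ist FF q.1 q.2) q.2)) :=
    prim_co.comp (g := fun q : ℕ × State => ((q.1, q.2.1), (lo FF q.1 (ist FF q.1 q.2) q.2,
      tg q.1 (ist FF q.1 q.2) q.2))) (Primrec.pair (Primrec.pair Primrec.fst
        (Primrec.fst.comp Primrec.snd)) (Primrec.pair h1 h2))
  have h5 : Primrec (fun q : ℕ × State => q.2.2.take (ist FF q.1 q.2) ++
      [np FF q.1 (ist FF q.1 q.2) q.2]) :=
    Primrec.list_append.comp (Primrec.list_take.comp ((prim_ist FF).comp Primrec.fst Primrec.snd)
      (Primrec.snd.comp Primrec.snd)) (Primrec.list_cons.comp h3 (Primrec.const []))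
  exact (Primrec.pair h4 h5)

/-- the construction -/
def Sg : ℕ → State
  | 0 => ([], [])
  | s + 1 => stage FF s (Sg s)

theorem prim_Sg : Primrec (Sg FF) := by
  have h : Primrec (fun k : ℕ => (Nat.rec ([], []) (fun s S => stage FF s S) k : State)) :=
    Primrec.nat_rec₁ _ (prim_stage FF)
  refine h.of_eq (fun k => ?_)
  induction k with
  | zero => rfl
  | succ k ih => simp only [Sg, ← ih]

end Pool.Agent.helper63.Dg4
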