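import Pool.Agent.helper63.Dg4.Eng2

/-!
# The finite-injury construction: invariants
-/

namespace Pool.Agent.helper63.Dg4

open Encodable Pool.Agent.helper63.Diag

set_option maxHeartbeats 400000

variable (FF : FS)

theorem fm_lt {ℓ t r : ℕ} (h : r < ℓ) : fm ℓ t r = r := by simp [fm, h]

theorem fm_eq {ℓ t : ℕ} : fm ℓ t ℓ = t := by simp [fm]

theorem fm_gt {ℓ t r : ℕ} (h : ℓ < r) : fm ℓ t r = 0 := by
  simp [fm, not_lt.2 h.le, h.ne']

theorem fm_le {ℓ t r : ℕ} (h : t < ℓ) : fm ℓ t r ≤ r := by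
  rcases lt_trichotomy r ℓ with h1 | h1 | h1
  · rw [fm_lt h1]
  · subst h1; rw [fm_eq]; omega
  · rw [fm_gt h1]; omega

theorem rt_co (s : ℕ) (R : List ℕ) (ℓ t z : ℕ) :
    rt (co s R ℓ t) z = if z < s + 2 then fm ℓ t (rt R z) else z := by
  unfold co
  by_cases h : z < s + 2
  · simp [rt, h]
  · simp only [h, if_false]
    have : rt ((List.range (s + 2)).map (fun z => fm ℓ t (rt R z))) z = z := by
      unfold rt
      rw [List.getElem?_eq_none (by simpa using not_lt.1 h)]
      rfl
    exact this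

structure Good (s : ℕ) (S : State) : Prop where
  le : ∀ z, rt S.1 z ≤ z
  big : ∀ z, s + 1 ≤ z → rt S.1 z = z
  idem : ∀ z, rt S.1 (rt S.1 z) = rt S.1 z
  r1 : rt S.1 1 = 1
  th2 : ∀ i < S.2.length, 2 ≤ th S i
  thle : ∀ i < S.2.length, th S i ≤ s + 1
  mono : ∀ i i', i < i' → i' < S.2.length → th S i < th S i'

variable {FF} {s : ℕ} {S : State}

theorem stage_len : (stage FF s S).2.length = ist FF s S + 1 := by
  simp [stage, Nat.min_eq_left (ist_le FF s S)]

theorem getD_append_left' {α : Type} (l l' : List α) (i : ℕ) (d : α) (h : i < l.length) :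
    (l ++ l').getD i d = l.getD i d := by
  rw [List.getD_eq_getElem?_getD, List.getD_eq_getElem?_getD, List.getElem?_append_left h]

theorem stage_getD_lt {i : ℕ} (h : i < ist FF s S) :
    (stage FF s S).2.getD i (0, 0) = S.2.getD i (0, 0) := by
  unfold stage
  have hl : i < (S.2.take (ist FF s S)).length := by
    rw [List.length_take, Nat.min_eq_left (ist_le FF s S)]; exact h
  rw [getD_append_left' _ _ _ _ hl, List.getD_eq_getElem?_getD, List.getD_eq_getElem?_getD,
    List.getElem?_take]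
  simp [h]

theorem stage_getD_eq : (stage FF s S).2.getD (ist FF s S) (0, 0) = np FF s (ist FF s S) S := by
  unfold stage
  have hl : (S.2.take (ist FF s S)).length = ist FF s S := by
    rw [List.length_take, Nat.min_eq_left (ist_le FF s S)]
  rw [List.getD_eq_getElem?_getD, List.getElem?_append_right (by rw [hl]), hl]
  simp

theorem stage_th_lt {i : ℕ} (h : i < ist FF s S) : th (stage FF s S) i = th S i := by
  unfold th; rw [stage_getD_lt h]

theorem stage_ct_lt {i : ℕ} (h : i < ist FF s S) : ct (stage FF s S) i = ct S i := by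
  unfold ct; rw [stage_getD_lt h]

theorem stage_th_eq (h : ist FF s S < S.2.length) :
    th (stage FF s S) (ist FF s S) = th S (ist FF s S) := by
  unfold th
  rw [stage_getD_eq]
  unfold np
  simp only [h, if_true]
  split_ifs <;> rfl

theorem stage_new (h : ist FF s S = S.2.length) :
    th (stage FF s S) (ist FF s S) = s + 2 ∧ ct (stage FF s S) (ist FF s S) = 1 := by
  unfold th ct
  rw [stage_getD_eq]
  unfold np
  simp [h]

/-- the target of the merging comes from an event -/
theorem tgR_spec {i : ℕ} (h : AtR s i S) : ∃ a, a < th S i ∧ EvR s i.unpair.2 S.1 (th S i) a ∧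
    tgR s i S = rt S.1 a := by
  obtain ⟨-, a, ha, hev⟩ := h
  have := Nat.findGreatest_spec
    (P := fun a => a < th S i ∧ EvR s i.unpair.2 S.1 (th S i) a) ha.le ⟨ha, hev⟩
  exact ⟨_, this.1, this.2, rfl⟩

theorem att_kind {i : ℕ} (h : Att FF s i S) (h0 : i.unpair.1 = 0) : AtR s i S := by
  rcases h with h | h
  · exact h.2
  · exact absurd h0 h.1

variable (hg : Good s S)
include hg

theorem tg_lt : tg s (ist FF s S) S < lo FF s (ist FF s S) S := by
  by_cases h1 : ist FF s S < S.2.length
  · by_cases h2 : (ist FF s S).unpair.1 = 0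
    · obtain ⟨a, ha, -, he⟩ := tgR_spec (att_kind (ist_att FF h1) h2)
      have h3 : lo FF s (ist FF s S) S = th S (ist FF s S) := by simp [lo, h1, h2]
      have h4 : tg s (ist FF s S) S = tgR s (ist FF s S) S := by simp [tg, h1, h2]
      rw [h3, h4, he]
      exact lt_of_le_of_lt (hg.le a) ha
    · have h4 : tg s (ist FF s S) S = 0 := by simp [tg, h2]
      rw [h4]
      unfold lo
      split_ifs with h5
      · have := hg.th2 _ h1; omega
      · omega
  · have h4 : tg s (ist FF s S) S = 0 := by simp [tg, h1]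
    have h3 : lo FF s (ist FF s S) S = s + 2 := by simp [lo, h1]
    rw [h3, h4]; omega

theorem rt_tg : rt S.1 (tg s (ist FF s S) S) = tg s (ist FF s S) S := by
  by_cases h1 : ist FF s S < S.2.length ∧ (ist FF s S).unpair.1 = 0
  · obtain ⟨a, ha, -, he⟩ := tgR_spec (att_kind (ist_att FF h1.1) h1.2)
    have h4 : tg s (ist FF s S) S = tgR s (ist FF s S) S := by simp [tg, h1]
    rw [h4, he]
    exact hg.idem a
  · have h4 : tg s (ist FF s S) S = 0 := by
      unfold tg; rw [if_neg h1]
    rw [h4]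
    exact Nat.le_zero.1 (hg.le 0)

theorem lo_le : lo FF s (ist FF s S) S ≤ s + 2 := by
  unfold lo
  split_ifs with h
  · have := hg.thle _ h.1; omega
  · exact le_rfl

theorem th_lt_lo {i : ℕ} (h : i < ist FF s S) : th S i < lo FF s (ist FF s S) S := by
  have hi : i < S.2.length := lt_of_lt_of_le h (ist_le FF s S)
  unfold lo
  split_ifs with h1
  · exact hg.mono _ _ h h1.1
  · have := hg.thle _ hi; omega

theorem lo_ge : 2 ≤ lo FF s (ist FF s S) S := by
  unfold lo
  split_ifs with h1
  · exact hg.th2 _ h1.1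
  · omega

omit hg in
theorem rt_stage (z : ℕ) : rt (stage FF s S).1 z = if z < s + 2 then
    fm (lo FF s (ist FF s S) S) (tg s (ist FF s S) S) (rt S.1 z) else z := rt_co _ _ _ _ _

/-- roots below the threshold are kept -/
theorem rt_keep {z : ℕ} (h : rt S.1 z < lo FF s (ist FF s S) S) :
    rt (stage FF s S).1 z = rt S.1 z := by
  rw [rt_stage]
  split_ifs with h1
  · exact fm_lt h
  · exact (hg.big z (by omega)).symm

theorem good_stage : Good (s + 1) (stage FF s S) := by
  have ht := tg_lt (FF := FF) hg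
  have hlo := lo_le (FF := FF) hg
  refine ⟨fun z => ?_, fun z hz => ?_, fun z => ?_, ?_, fun i hi => ?_, fun i hi => ?_,
    fun i i' hii hi' => ?_⟩
  · rw [rt_stage]
    split_ifs with h
    · exact (fm_le ht).trans (hg.le z)
    · exact le_rfl
  · rw [rt_stage, if_neg (by omega)]
  · rw [rt_stage z]
    split_ifs with h
    · have hr : rt S.1 z < s + 2 := lt_of_le_of_lt (hg.le z) h
      rcases lt_trichotomy (rt S.1 z) (lo FF s (ist FF s S) S) with h1 | h1 | h1
      · rw [fm_lt h1, rt_keep hg (by rw [hg.idem]; exact h1), hg.idem]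
      · rw [h1, fm_eq, rt_keep hg (by rw [rt_tg hg]; exact ht), rt_tg hg]
      · rw [fm_gt h1]
        have h0 : rt S.1 0 = 0 := Nat.le_zero.1 (hg.le 0)
        rw [rt_keep hg (by rw [h0]; omega), h0]
    · rw [rt_stage, if_neg h]
  · rw [rt_keep hg (by rw [hg.r1]; have := lo_ge (FF := FF) hg; omega), hg.r1]
  · rw [stage_len] at hi
    rcases Nat.lt_succ_iff_lt_or_eq.1 hi with h | h
    · rw [stage_th_lt h]; exact hg.th2 _ (lt_of_lt_of_le h (ist_le FF s S))
    · rcases (ist_le FF s S).lt_or_eq with h1 | h1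
      · rw [h, stage_th_eq h1]; exact hg.th2 _ h1
      · rw [h, (stage_new h1).1]; omega
  · rw [stage_len] at hi
    rcases Nat.lt_succ_iff_lt_or_eq.1 hi with h | h
    · rw [stage_th_lt h]; have := hg.thle _ (lt_of_lt_of_le h (ist_le FF s S)); omega
    · rcases (ist_le FF s S).lt_or_eq with h1 | h1
      · rw [h, stage_th_eq h1]; have := hg.thle _ h1; omega
      · rw [h, (stage_new h1).1]
  · rw [stage_len] at hi'
    have hi : i < ist FF s S := by omega
    rcases Nat.lt_succ_iff_lt_or_eq.1 hi' with h | h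
    · rw [stage_th_lt hi, stage_th_lt h]
      exact hg.mono _ _ hii (lt_of_lt_of_le h (ist_le FF s S))
    · rcases (ist_le FF s S).lt_or_eq with h1 | h1
      · rw [stage_th_lt hi, h, stage_th_eq h1]; exact hg.mono _ _ hi h1
      · rw [stage_th_lt hi, h, (stage_new h1).1]
        have := hg.thle _ (lt_of_lt_of_le hi (ist_le FF s S)); omega

omit hg

variable (FF)

theorem good (s : ℕ) : Good s (Sg FF s) := by
  induction s with
  | zero =>
    have h : ∀ z, rt (Sg FF 0).1 z = z := fun z => by simp [Sg, rt]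
    refine ⟨fun z => (h z).le, fun z _ => h z, fun z => by rw [h, h], h 1, ?_, ?_, ?_⟩ <;>
      simp [Sg]
  | succ s ih => exact good_stage ih

/-- the acting requirement at stage `s` -/
def ac (s : ℕ) : ℕ := ist FF s (Sg FF s)

/-- the root at stage `s` -/
def rs (s z : ℕ) : ℕ := rt (Sg FF s).1 z

theorem rs_anti {s s' : ℕ} (h : s ≤ s') (z : ℕ) : rs FF s' z ≤ rs FF s z := by
  induction h with
  | refl => exact le_rfl
  | step h ih =>
    refine le_trans ?_ ih
    rename_i k
    show rt (stage FF k (Sg FF k)).1 z ≤ rt (Sg FF k).1 z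
    rw [rt_stage]
    split_ifs with h1
    · exact fm_le (tg_lt (good FF k))
    · exact ((good FF k).big z (by omega)).ge

/-- the constructed equivalence relation -/
def Er (z z' : ℕ) : Prop := ∃ s, rs FF s z = rs FF s z'

theorem rs_eq_mono {s s' z z' : ℕ} (h : s ≤ s') (he : rs FF s z = rs FF s z') :
    rs FF s' z = rs FF s' z' := by
  induction h with
  | refl => exact he
  | step h ih =>
    rename_i k
    have hg := good FF k
    have ih' : rt (Sg FF k).1 z = rt (Sg FF k).1 z' := ih
    show rt (stage FF k (Sg FF k)).1 z = rt (stage FF k (Sg FF k)).1 z'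
    by_cases hz : z < k + 2
    · by_cases hz' : z' < k + 2
      · rw [rt_stage, rt_stage, if_pos hz, if_pos hz', ih']
      · have h1 := hg.big z' (by omega)
        have h2 := hg.le z
        omega
    · by_cases hz' : z' < k + 2
      · have h1 := hg.big z (by omega)
        have h2 := hg.le z'
        omega
      · rw [rt_stage, rt_stage, if_neg hz, if_neg hz', ← hg.big z (by omega), ih',
          hg.big z' (by omega)]

theorem Er_equiv : Equivalence (Er FF) := by
  refine ⟨fun z => ⟨0, rfl⟩, fun ⟨s, h⟩ => ⟨s, h.symm⟩, fun {x y z} h h' => ?_⟩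
  obtain ⟨s, h⟩ := h
  obtain ⟨s', h'⟩ := h'
  exact ⟨max s s', (rs_eq_mono FF (le_max_left _ _) h).trans
    (rs_eq_mono FF (le_max_right _ _) h')⟩

theorem prim_rs : Primrec₂ (rs FF) :=
  prim_rt.comp (Primrec.fst.comp ((prim_Sg FF).comp Primrec.fst)) Primrec.snd

theorem Er_ce : CE (fun p : ℕ × ℕ => Er FF p.1 p.2) := by
  refine S1.ex (A := fun (p : ℕ × ℕ) (s : ℕ) => rs FF s p.1 = rs FF s p.2) (S1.prim ?_)
  exact Primrec.eq.comp ((prim_rs FF).comp Primrec.snd (Primrec.fst.comp Primrec.fst))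
    ((prim_rs FF).comp Primrec.snd (Primrec.snd.comp Primrec.fst))

theorem rs_one (s : ℕ) : rs FF s 1 = 1 := (good FF s).r1

theorem rs_zero (s : ℕ) : rs FF s 0 = 0 := Nat.le_zero.1 ((good FF s).le 0)

theorem Er_ne : ¬ Er FF 0 1 := by
  rintro ⟨s, h⟩
  rw [rs_zero, rs_one] at h
  omega

/-- roots stabilise -/
theorem rs_lim (z : ℕ) : ∃ s0, ∀ s, s0 ≤ s → rs FF s z = rs FF s0 z := by
  classical
  have hne : ∃ r, ∃ s, rs FF s z = r := ⟨_, 0, rfl⟩
  obtain ⟨s0, hs0⟩ := Nat.find_spec hne
  refine ⟨s0, fun s hs => le_antisymm (rs_anti FF hs z) ?_⟩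
  rw [hs0]
  exact Nat.find_min' hne ⟨s, rfl⟩

/-- the limit root -/
noncomputable def lr (z : ℕ) : ℕ := rs FF (Classical.choose (rs_lim FF z)) z

theorem lr_spec (z : ℕ) : ∃ s0, ∀ s, s0 ≤ s → rs FF s z = lr FF z :=
  ⟨_, Classical.choose_spec (rs_lim FF z)⟩

theorem lr_bounded (m : ℕ) : ∃ s0, ∀ s, s0 ≤ s → ∀ z < m, rs FF s z = lr FF z := by
  induction m with
  | zero => exact ⟨0, fun s _ z hz => absurd hz (by omega)⟩
  | succ m ih =>
    obtain ⟨s0, h0⟩ := ih
    obtain ⟨s1, h1⟩ := lr_spec FF m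
    refine ⟨max s0 s1, fun s hs z hz => ?_⟩
    rcases Nat.lt_succ_iff_lt_or_eq.1 hz with h | h
    · exact h0 s (le_trans (le_max_left _ _) hs) z h
    · rw [h]; exact h1 s (le_trans (le_max_right _ _) hs)

theorem Er_iff (z z' : ℕ) : Er FF z z' ↔ lr FF z = lr FF z' := by
  obtain ⟨s0, h0⟩ := lr_spec FF z
  obtain ⟨s1, h1⟩ := lr_spec FF z'
  constructor
  · rintro ⟨s, hs⟩
    have h2 := rs_eq_mono FF (le_max_left s (max s0 s1)) hs
    rw [h0 _ (le_trans (le_max_left s0 s1) (le_max_right _ _)),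
      h1 _ (le_trans (le_max_right s0 s1) (le_max_right _ _))] at h2
    exact h2
  · intro h
    refine ⟨max s0 s1, ?_⟩
    rw [h0 _ (le_max_left _ _), h1 _ (le_max_right _ _), h]

theorem Er_rs (s z : ℕ) : Er FF z (rs FF s z) := ⟨s, ((good FF s).idem z).symm⟩

end Pool.Agent.helper63.Dg4
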