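import Pool.Agent.helper63.Dg4.Eng3

/-!
# The finite-injury construction: every requirement acts finitely often
-/

namespace Pool.Agent.helper63.Dg4

open Encodable Pool.Agent.helper63.Diag

set_option maxHeartbeats 400000

variable (FF : FS)

theorem Sg_succ (s : ℕ) : Sg FF (s + 1) = stage FF s (Sg FF s) := rfl

theorem len_succ (s : ℕ) : (Sg FF (s + 1)).2.length = ac FF s + 1 := stage_len

theorem ac_le (s : ℕ) : ac FF s ≤ (Sg FF s).2.length := ist_le FF s _

theorem ac_att {s : ℕ} (h : ac FF s < (Sg FF s).2.length) : Att FF s (ac FF s) (Sg FF s) :=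
  ist_att FF h

theorem ac_not_att {s i : ℕ} (h : i < ac FF s) : ¬ Att FF s i (Sg FF s) := ist_spec FF s _ i h

theorem th_succ_lt {s i : ℕ} (h : i < ac FF s) : th (Sg FF (s + 1)) i = th (Sg FF s) i :=
  stage_th_lt h

theorem ct_succ_lt {s i : ℕ} (h : i < ac FF s) : ct (Sg FF (s + 1)) i = ct (Sg FF s) i :=
  stage_ct_lt h

theorem th_succ_eq {s : ℕ} (h : ac FF s < (Sg FF s).2.length) :
    th (Sg FF (s + 1)) (ac FF s) = th (Sg FF s) (ac FF s) := stage_th_eq h

/-- the situation after the last injury -/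
structure Free (i s1 : ℕ) : Prop where
  le : ∀ s, s1 ≤ s → i ≤ ac FF s
  len : ∀ s, s1 ≤ s → i < (Sg FF s).2.length
  th : ∀ s, s1 ≤ s → th (Sg FF s) i = th (Sg FF s1) i

theorem free_of {i s1 : ℕ} (h : ∀ s, s1 ≤ s → i ≤ ac FF s) : Free FF i (s1 + 1) := by
  have hlen : ∀ s, s1 + 1 ≤ s → i < (Sg FF s).2.length := by
    intro s hs
    obtain ⟨t, rfl⟩ : ∃ t, s = t + 1 := ⟨s - 1, by omega⟩
    rw [len_succ]
    have := h t (by omega)
    omega
  refine ⟨fun s hs => h s (by omega), hlen, fun s hs => ?_⟩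
  induction s, hs using Nat.le_induction with
  | base => rfl
  | succ s hs ih =>
    rw [← ih]
    rcases (h s (by omega)).lt_or_eq with h1 | h1
    · exact th_succ_lt FF h1
    · have h2 := hlen s hs
      rw [h1] at h2 ⊢
      exact th_succ_eq FF h2

variable {FF}

theorem rfin {i s1 : ℕ} (hf : Free FF i s1) (h0 : i.unpair.1 = 0) :
    ∃ s2, ∀ s, s2 ≤ s → i < ac FF s := by
  by_cases h : ∃ s, s1 ≤ s ∧ ac FF s = i
  · obtain ⟨s, hs, hac⟩ := h
    have hlt : ac FF s < (Sg FF s).2.length := by rw [hac]; exact hf.len s hs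
    have hat := ac_att FF hlt
    rw [hac] at hat
    have hR := att_kind hat h0
    have hg := good FF s
    have hlo : lo FF s (ac FF s) (Sg FF s) = th (Sg FF s) (ac FF s) := by
      have : (ac FF s).unpair.1 = 0 := by rw [hac]; exact h0
      simp [lo, hlt, this]
    have h1 : rs FF (s + 1) (th (Sg FF s) i) < th (Sg FF s) i := by
      show rt (stage FF s (Sg FF s)).1 (th (Sg FF s) i) < _
      rw [rt_stage]
      have h2 : th (Sg FF s) i < s + 2 := by have := hg.thle i (hf.len s hs); omega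
      rw [if_pos h2, hR.1]
      have h3 : ist FF s (Sg FF s) = i := hac
      have h4 := tg_lt (FF := FF) hg
      change lo FF s (ist FF s (Sg FF s)) (Sg FF s) = th (Sg FF s) (ist FF s (Sg FF s)) at hlo
      rw [h3] at hlo h4 ⊢
      rw [hlo, fm_eq]
      rw [hlo] at h4
      exact h4
    refine ⟨s + 1, fun s' hs' => ?_⟩
    rcases (hf.le s' (by omega)).lt_or_eq with h2 | h2
    · exact h2
    · exfalso
      have hat' := ac_att FF (s := s') (by rw [← h2]; exact hf.len s' (by omega))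
      rw [← h2] at hat'
      have hR' := att_kind hat' h0
      have h3 := hR'.1
      have h4 : rs FF s' (th (Sg FF s) i) ≤ rs FF (s + 1) (th (Sg FF s) i) := rs_anti FF hs' _
      have h5 : th (Sg FF s') i = th (Sg FF s) i := by
        rw [hf.th s' (by omega), hf.th s hs]
      rw [h5] at h3
      have h6 : rs FF s' (th (Sg FF s) i) = th (Sg FF s) i := h3
      omega
  · push Not at h
    refine ⟨s1, fun s hs => lt_of_le_of_ne (hf.le s hs) (fun h1 => h s hs h1.symm)⟩

theorem att_kind' {s i : ℕ} {S : State} (h : Att FF s i S) (h0 : ¬ i.unpair.1 = 0) :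
    ¬ ct S i = 0 ∧ (ARf FF s i S ∨ ACv s i S) := by
  rcases h with h | h
  · exact absurd h.1 h0
  · exact h.2

/-- finitely many eventual properties -/
theorem list_eventually {α : Type} {P : α → ℕ → Prop} (L : List α) (h : ∀ p ∈ L, ∃ N, ∀ u, N ≤ u →
    P p u) : ∃ N, ∀ p ∈ L, ∀ u, N ≤ u → P p u := by
  induction L with
  | nil => exact ⟨0, by simp⟩
  | cons a L ih =>
    obtain ⟨N, hN⟩ := ih (fun p hp => h p (List.mem_cons_of_mem _ hp))
    obtain ⟨M, hM⟩ := h a List.mem_cons_self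
    refine ⟨max N M, fun p hp u hu => ?_⟩
    rcases List.mem_cons.1 hp with rfl | hp
    · exact hM u ((le_max_right _ _).trans hu)
    · exact hN p hp u ((le_max_left _ _).trans hu)

theorem qfin {i s1 : ℕ} (hf : Free FF i s1) (h0 : ¬ i.unpair.1 = 0)
    (hno : ¬ ∃ g : ℕ → ℕ, Computable g ∧ ∀ y, ¬ FF.F (i.unpair.1 - 1) y (g y)) :
    ∃ s2, ∀ s, s2 ≤ s → i < ac FF s := by
  classical
  by_contra hcon
  push Not at hcon
  have hinf : ∀ s2, ∃ s, (s2 ≤ s ∧ s1 ≤ s) ∧ ac FF s = i := by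
    intro s2
    obtain ⟨s, hs, hle⟩ := hcon (max s1 s2)
    have h1 : s1 ≤ s := (le_max_left _ _).trans hs
    exact ⟨s, ⟨(le_max_right _ _).trans hs, h1⟩, le_antisymm hle (hf.le s h1)⟩
  -- facts at actions
  have hatt : ∀ s, s1 ≤ s → ac FF s = i → ¬ ct (Sg FF s) i = 0 ∧
      (ARf FF s i (Sg FF s) ∨ ACv s i (Sg FF s)) := by
    intro s hs hac
    have h1 := ac_att FF (s := s) (by rw [hac]; exact hf.len s hs)
    rw [hac] at h1
    exact att_kind' h1 h0
  have hct : ∀ s, s1 ≤ s → ac FF s = i → ct (Sg FF (s + 1)) i =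
      if ARf FF s i (Sg FF s) then 0 else ct (Sg FF s) i + 1 := by
    intro s hs hac
    have h1 : (Sg FF (s + 1)).2.getD (ac FF s) (0, 0) = np FF s (ac FF s) (Sg FF s) :=
      stage_getD_eq
    rw [hac] at h1
    unfold ct
    rw [h1]
    unfold np
    simp only [hf.len s hs, if_true, h0, if_false]
    split_ifs <;> rfl
  have hne : ∀ s, s1 ≤ s → ct (Sg FF s) i ≠ 0 := by
    intro s hs hz
    have hall : ∀ s', s ≤ s' → ct (Sg FF s') i = 0 := by
      intro s' hs'
      induction s', hs' using Nat.le_induction with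
      | base => exact hz
      | succ s' hs' ih =>
        rcases (hf.le s' (hs.trans hs')).lt_or_eq with h1 | h1
        · rw [ct_succ_lt FF h1]; exact ih
        · exact absurd ih (hatt s' (hs.trans hs') h1.symm).1
    obtain ⟨s', ⟨h1, h2⟩, h3⟩ := hinf s
    exact (hatt s' h2 h3).1 (hall s' h1)
  have hnrf : ∀ s, s1 ≤ s → ac FF s = i → ¬ ARf FF s i (Sg FF s) := by
    intro s hs hac h1
    have h2 := hct s hs hac
    rw [if_pos h1] at h2
    exact hne (s + 1) (by omega) h2
  have hlo : ∀ s, s1 ≤ s → ac FF s = i → lo FF s (ac FF s) (Sg FF s) = s + 2 := by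
    intro s hs hac
    unfold lo
    rw [if_neg]
    rintro ⟨-, h | h⟩
    · rw [hac] at h; exact h0 h
    · rw [hac] at h; exact hnrf s hs hac h
  -- protection
  have hprot : ∀ u, s1 ≤ u → ac FF u = i → ∀ s', u + 1 ≤ s' → ∀ i', i < i' →
      i' < (Sg FF s').2.length → u + 3 ≤ th (Sg FF s') i' := by
    intro u hu hac s' hs'
    induction s', hs' using Nat.le_induction with
    | base =>
      intro i' h1 h2
      rw [len_succ, hac] at h2
      omega
    | succ s' hs' ih =>
      intro i' h1 h2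
      rw [len_succ] at h2
      rcases Nat.lt_succ_iff_lt_or_eq.1 h2 with h3 | h3
      · rw [th_succ_lt FF h3]
        exact ih i' h1 (lt_of_lt_of_le h3 (ac_le FF s'))
      · rcases (ac_le FF s').lt_or_eq with h4 | h4
        · rw [h3, th_succ_eq FF h4]
          exact ih _ (by omega) h4
        · have h5 : th (Sg FF (s' + 1)) (ac FF s') = s' + 2 := (stage_new h4).1
          rw [h3, h5]
          omega
  have hkeep : ∀ u, s1 ≤ u → ac FF u = i → ∀ s', u ≤ s' → ∀ z, z ≤ u + 1 →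
      rs FF s' z = rs FF u z := by
    intro u hu hac s' hs'
    induction s', hs' using Nat.le_induction with
    | base => exact fun _ _ => rfl
    | succ s' hs' ih =>
      intro z hz
      rw [← ih z hz]
      have hg := good FF s'
      refine rt_keep hg ?_
      have h1 : rt (Sg FF s').1 z ≤ z := hg.le z
      have h2 : u + 1 < lo FF s' (ac FF s') (Sg FF s') := by
        rcases (hf.le s' (hu.trans hs')).lt_or_eq with h3 | h3
        · have h4 : u + 1 ≤ s' := by
            rcases hs'.lt_or_eq with h5 | h5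
            · exact h5
            · rw [← h5, hac] at h3; omega
          unfold lo
          split_ifs with h5
          · have := hprot u hu hac s' h4 _ h3 h5.1
            omega
          · omega
        · rw [hlo s' (hu.trans hs') h3.symm]; omega
      change u + 1 < lo FF s' (ist FF s' (Sg FF s')) (Sg FF s') at h2
      omega
  obtain ⟨ℓ, hℓ⟩ : ∃ ℓ, ℓ = th (Sg FF s1) i := ⟨_, rfl⟩
  have hth : ∀ s, s1 ≤ s → th (Sg FF s) i = ℓ := fun s hs => by rw [hf.th s hs, hℓ]
  have hcs : ∀ u, s1 ≤ u → ac FF u = i → ∀ s', u ≤ s' → ∀ p m, m ≤ u →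
      cs (Sg FF s').1 ℓ p m = cs (Sg FF u).1 ℓ p m := by
    intro u hu hac s' hs' p m hm
    unfold cs
    refine res_congr (fun z hz => ?_)
    have := hkeep u hu hac s' hs' z (by omega)
    unfold rs at this
    unfold cf
    rw [this]
  obtain ⟨k, hk⟩ : ∃ k, k = i.unpair.2.unpair.1 := ⟨_, rfl⟩
  obtain ⟨e, he⟩ : ∃ e, e = i.unpair.2.unpair.2 := ⟨_, rfl⟩
  obtain ⟨j, hj⟩ : ∃ j, j = i.unpair.1 - 1 := ⟨_, rfl⟩
  -- a pattern which is never refuted
  have hpat : ∃ p, p ∈ strs k ℓ ∧ ∀ u, s1 ≤ u → ac FF u = i → ¬ Rf FF j u e (Sg FF u).1 ℓ p := by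
    by_contra hc
    push Not at hc
    have h1 : ∀ p ∈ strs k ℓ, ∃ N, ∀ u, N ≤ u → (s1 ≤ u → ac FF u = i →
        Rf FF j u e (Sg FF u).1 ℓ p) := by
      intro p hp
      obtain ⟨u, hu, hac, m, hm, y, hy, z, hz, h2, h3⟩ := hc p hp
      refine ⟨u, fun u' hu' _ _ => ⟨m, by omega, y, by omega, z, by omega, ?_, FF.mono _ _ _ hu' h3⟩⟩
      rw [hcs u hu hac u' hu' p m (by omega)]
      exact We_mono hu' h2
    obtain ⟨N, hN⟩ := list_eventually _ h1
    obtain ⟨u, ⟨hu1, hu2⟩, hac⟩ := hinf N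
    apply hnrf u hu2 hac
    intro p hp
    rw [← hk, hth u hu2] at hp
    rw [hth u hu2, ← hj, ← he]
    exact hN p hp u hu1 hu2 hac
  obtain ⟨p, hp, hnp⟩ := hpat
  -- the counters are unbounded
  have hmonoct : ∀ s, s1 ≤ s → ∀ s', s ≤ s' → ct (Sg FF s) i ≤ ct (Sg FF s') i := by
    intro s hs s' hs'
    induction s', hs' using Nat.le_induction with
    | base => exact le_rfl
    | succ s' hs' ih =>
      refine ih.trans ?_
      rcases (hf.le s' (hs.trans hs')).lt_or_eq with h1 | h1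
      · rw [ct_succ_lt FF h1]
      · rw [hct s' (hs.trans hs') h1.symm, if_neg (hnrf s' (hs.trans hs') h1.symm)]
        omega
  have hunb : ∀ y, ∃ u, (s1 ≤ u ∧ ac FF u = i) ∧ y < ct (Sg FF u) i := by
    intro y
    induction y with
    | zero =>
      obtain ⟨u, ⟨-, hu⟩, hac⟩ := hinf 0
      exact ⟨u, ⟨hu, hac⟩, Nat.pos_of_ne_zero (hne u hu)⟩
    | succ y ih =>
      obtain ⟨u, ⟨hu, hac⟩, hy⟩ := ih
      obtain ⟨u', ⟨hu1, hu2⟩, hac'⟩ := hinf (u + 1)
      refine ⟨u', ⟨hu2, hac'⟩, ?_⟩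
      have h1 := hmonoct (u + 1) (by omega) u' hu1
      rw [hct u hu hac, if_neg (hnrf u hu hac)] at h1
      omega
  -- the computable function
  let P : ℕ → ℕ → Prop := fun y t =>
    ((s1 ≤ t.unpair.1 ∧ ac FF t.unpair.1 = i) ∧ t.unpair.2.unpair.1 < t.unpair.1 + 1) ∧
      (t.unpair.2.unpair.2 < t.unpair.1 + 1 ∧
        We t.unpair.1 e (encode (cs (Sg FF t.unpair.1).1 ℓ p t.unpair.2.unpair.1, y,
          t.unpair.2.unpair.2)))
  have hP : PrimrecRel P := by
    have ht : Primrec (fun q : ℕ × ℕ => q.2.unpair) := Primrec.unpair.comp Primrec.snd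
    have hu : Primrec (fun q : ℕ × ℕ => q.2.unpair.1) := Primrec.fst.comp ht
    have hr : Primrec (fun q : ℕ × ℕ => q.2.unpair.2.unpair) :=
      Primrec.unpair.comp (Primrec.snd.comp ht)
    have hm : Primrec (fun q : ℕ × ℕ => q.2.unpair.2.unpair.1) := Primrec.fst.comp hr
    have hz : Primrec (fun q : ℕ × ℕ => q.2.unpair.2.unpair.2) := Primrec.snd.comp hr
    have hS : Primrec (fun q : ℕ × ℕ => Sg FF q.2.unpair.1) := (prim_Sg FF).comp hu
    have hac : Primrec (fun q : ℕ × ℕ => ac FF q.2.unpair.1) := (prim_ist FF).comp hu hS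
    refine PrimrecPred.and (PrimrecPred.and (PrimrecPred.and ?_ ?_) ?_) (PrimrecPred.and ?_ ?_)
    · exact Primrec.nat_le.comp (Primrec.const s1) hu
    · exact Primrec.eq.comp hac (Primrec.const i)
    · exact Primrec.nat_lt.comp hm (Primrec.succ.comp hu)
    · exact Primrec.nat_lt.comp hz (Primrec.succ.comp hu)
    · have hc : Primrec (fun q : ℕ × ℕ => cs (Sg FF q.2.unpair.1).1 ℓ p q.2.unpair.2.unpair.1) :=
        prim_cs.comp (g := fun q : ℕ × ℕ =>
          ((((Sg FF q.2.unpair.1).1, ℓ), p), q.2.unpair.2.unpair.1))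
          (Primrec.pair (Primrec.pair (Primrec.pair (Primrec.fst.comp hS) (Primrec.const ℓ))
            (Primrec.const p)) hm)
      exact prim_We.comp (f := fun q : ℕ × ℕ => ((q.2.unpair.1, e),
        encode (cs (Sg FF q.2.unpair.1).1 ℓ p q.2.unpair.2.unpair.1, q.1, q.2.unpair.2.unpair.2)))
        (Primrec.pair (Primrec.pair hu (Primrec.const e)) (Primrec.encode.comp
          (Primrec.pair hc (Primrec.pair Primrec.fst hz))))
  have hex : ∀ y, ∃ t, P y t := by
    intro y
    obtain ⟨u, ⟨hu, hac⟩, hy⟩ := hunb y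
    have h1 : ACv u i (Sg FF u) := by
      rcases (hatt u hu hac).2 with h | h
      · exact absurd h (hnrf u hu hac)
      · exact h
    obtain ⟨m, hm, z, hz, h2⟩ := h1 p (by rw [← hk, hth u hu]; exact hp) y hy
    rw [hth u hu, ← he] at h2
    refine ⟨Nat.pair u (Nat.pair m z), ?_⟩
    simp only [P, Nat.unpair_pair]
    exact ⟨⟨⟨hu, hac⟩, hm⟩, hz, h2⟩
  apply hno
  refine ⟨fun y => (Nat.find (hex y)).unpair.2.unpair.2, ?_, fun y hF => ?_⟩
  · have h1 : Primrec (fun t : ℕ => t.unpair.2.unpair.2) :=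
      Primrec.snd.comp (Primrec.unpair.comp (Primrec.snd.comp Primrec.unpair))
    exact h1.to_comp.comp (Computable.find (P := P) (PrimrecPred.computablePred hP) hex)
  · obtain ⟨t, ht⟩ : ∃ t, t = Nat.find (hex y) := ⟨_, rfl⟩
    have hPt := Nat.find_spec (hex y)
    change FF.F (i.unpair.1 - 1) y (Nat.find (hex y)).unpair.2.unpair.2 at hF
    rw [← ht] at hPt hF
    obtain ⟨⟨⟨hu, hac⟩, hm⟩, hz, hW⟩ := hPt
    obtain ⟨s', hs'⟩ := (FF.iff _ _ _).1 hF
    rw [← hj] at hs'
    obtain ⟨u', ⟨hu1, hu2⟩, hac'⟩ := hinf (max (max s' y) t.unpair.1)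
    have h1 : s' ≤ u' := (le_max_left _ _).trans ((le_max_left _ _).trans hu1)
    have h2 : y ≤ u' := (le_max_right _ _).trans ((le_max_left _ _).trans hu1)
    have h3 : t.unpair.1 ≤ u' := (le_max_right _ _).trans hu1
    apply hnp u' hu2 hac'
    refine ⟨t.unpair.2.unpair.1, by omega, y, by omega, t.unpair.2.unpair.2, by omega, ?_,
      FF.mono _ _ _ h1 hs'⟩
    rw [hcs _ hu hac u' h3 p _ (by omega)]
    exact We_mono h3 hW

/-- **finite injury** -/
theorem stab (hno : ∀ j, ¬ ∃ g : ℕ → ℕ, Computable g ∧ ∀ y, ¬ FF.F j y (g y)) (i : ℕ) :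
    ∃ s0, ∀ s, s0 ≤ s → i < ac FF s := by
  have step : ∀ i s1, (∀ s, s1 ≤ s → i ≤ ac FF s) → ∃ s0, ∀ s, s0 ≤ s → i < ac FF s := by
    intro i s1 h
    have hf := free_of FF h
    by_cases h0 : i.unpair.1 = 0
    · exact rfin hf h0
    · exact qfin hf h0 (hno _)
  induction i with
  | zero => exact step 0 0 (fun s _ => Nat.zero_le _)
  | succ i ih =>
    obtain ⟨s0, h⟩ := ih
    exact step (i + 1) s0 h

end Pool.Agent.helper63.Dg4
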