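import Pool.Agent.helper63.Dg4.Spec

/-!
# Row FCE of the project dg4 (MP_a87378_lc)
-/

namespace Pool.Agent.helper63.Dg4

open Encodable Pool.Agent.helper63.Diag

theorem fce_start (hCOL : COL_stmt) (pz : Cond) :
    ∀ L : List (ℕ → ℕ → Prop), (∀ E ∈ L, IsCeer E ∧ ∃ a b, ¬ E a b) →
      ∃ q0 : Cond, ∀ E ∈ L, (∀ X, CompDiag X E) ∨
        ∃ κ, q0.ab.getD κ 0 = 2 ∧ (q0.ce κ).E = E := by
  intro L
  induction L with
  | nil => intro _; exact ⟨pz, by simp⟩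
  | cons E L ih =>
    intro h
    obtain ⟨q0, hq0⟩ := ih (fun E' h' => h E' (List.mem_cons_of_mem _ h'))
    obtain ⟨hE, hne⟩ := h E List.mem_cons_self
    by_cases hd : ∃ g : ℕ → ℕ, Computable g ∧ ∀ x, ¬ E (g x) x
    · refine ⟨q0, fun E' h' => ?_⟩
      rcases List.mem_cons.1 h' with rfl | h'
      · left
        intro X
        obtain ⟨g, hg, hg2⟩ := hd
        refine ⟨g, ?_, hg2⟩
        have h1 : Nat.RecursiveIn {fun n => Part.some (X n)} (fun n => Part.some (g n)) :=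
          Nat.Partrec.recursiveIn (Partrec.nat_iff.1 hg.partrec)
        exact RecursiveIn.iff_nat.2 h1
      · exact hq0 E' h'
    · obtain ⟨q, κ, h1, h2, h3⟩ := hCOL q0
        { E := E, eqv := hE.1, ce := S1.of_re hE.2, ne := hne, hard := hd }
      refine ⟨q, fun E' h' => ?_⟩
      rcases List.mem_cons.1 h' with rfl | h'
      · right
        exact ⟨κ, h2, by rw [h3]⟩
      · rcases hq0 E' h' with h4 | ⟨κ', h4, h5⟩
        · exact Or.inl h4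
        · right
          obtain ⟨h6, h7⟩ := h1.1 κ' (by rw [h4]; norm_num)
          exact ⟨κ', h6.trans h4, by rw [h7]; exact h5⟩

theorem FCE (hPZ : PZ_stmt) (hCOL : COL_stmt) (hDAT : DAT_stmt) (hGEN : GEN_stmt)
    (hDAX : DAX_stmt) (hENQ : ENQ_stmt) (hFORCE : FORCE_stmt) : FCE_stmt := by
  classical
  intro L hL
  obtain ⟨pz, -, -⟩ := hPZ
  obtain ⟨q0, hq0⟩ := fce_start hCOL pz L hL
  obtain ⟨E', hE', h01, hR, hQ⟩ := hENQ q0
  have : Countable {D : List ℕ → ℕ × ℕ → Prop | PrimrecRel D} :=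
    countable_primrecRel.to_subtype
  let T1 : ℕ × ℕ × ℕ → Cond → Prop := fun t q => q.ab.getD t.1 0 = 2 →
      ∃ i, (t.2.2 ≤ i ∧ i < q.σ.length) ∧ (col i = t.1 ∧ el i = t.2.1) ∧ q.σ.getD i 0 ≠ 0
  let T2 : {D : List ℕ → ℕ × ℕ → Prop | PrimrecRel D} → Cond → Prop := fun D q =>
    ∀ g, Sat q g → Req D.1 E' g
  let T : (ℕ × ℕ × ℕ) ⊕ {D : List ℕ → ℕ × ℕ → Prop | PrimrecRel D} → Cond → Prop :=
    Sum.elim T1 T2
  have : Nonempty ((ℕ × ℕ × ℕ) ⊕ {D : List ℕ → ℕ × ℕ → Prop | PrimrecRel D}) :=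
    ⟨Sum.inl (0, 0, 0)⟩
  obtain ⟨enum, henum⟩ :=
    exists_surjective_nat ((ℕ × ℕ × ℕ) ⊕ {D : List ℕ → ℕ × ℕ → Prop | PrimrecRel D})
  have dense : ∀ t p, (Le p q0 ∧ Sm p q0) → ∃ q, (Le q q0 ∧ Sm q q0) ∧ Le q p ∧ T t q := by
    rintro (⟨κ, x, B⟩ | D) p ⟨hp1, hp2⟩
    · by_cases h : p.ab.getD κ 0 = 2
      · obtain ⟨q, h1, h2, h3⟩ := hDAT p κ x B h
        exact ⟨q, ⟨h1.trans hp1, h2.trans hp2⟩, h1, fun _ => h3⟩
      · exact ⟨p, ⟨hp1, hp2⟩, Le.refl p, fun h' => absurd h' h⟩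
    · obtain ⟨q, h1, h2, h3⟩ := hFORCE E' hE'.1 hR p (fun κ hκ => by
        obtain ⟨h4, h5⟩ := hp2 κ hκ
        have h6 := hQ κ h4
        rw [← h5] at h6
        exact h6) D.1 D.2
      exact ⟨q, ⟨h1.trans hp1, h2.trans hp2⟩, h1, h3⟩
  obtain ⟨s, X, hs0, -, hle, hDD, -, hsat⟩ := hGEN (fun p => Le p q0 ∧ Sm p q0)
    (fun i => T (enum i))
    (fun p hp i => dense (enum i) p hp) (fun p q hp h1 h2 => ⟨h1.trans hp.1, h2.trans hp.2⟩) q0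
    ⟨Le.refl q0, Sm.refl q0⟩
  have hT : ∀ t m0, ∃ m ≥ m0, T t (s m) := by
    intro t m0
    obtain ⟨i, rfl⟩ := henum t
    exact hDD i m0
  refine ⟨E', hE', ⟨0, 1, h01⟩, X, fun E hE => ?_, ?_⟩
  · rcases hq0 E hE with h | ⟨κ, h1, h2⟩
    · exact h X
    · have h3 := hDAX s X hsat hle (fun κ x B m0 => hT (Sum.inl (κ, x, B)) m0) 0 κ
        (by rw [hs0]; exact h1)
      rw [hs0, h2] at h3
      exact h3
  · rintro ⟨g, hg1, hg2⟩
    obtain ⟨D, hD, hA⟩ := s1_graph hg1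
    obtain ⟨k, -, hk⟩ := hT (Sum.inr ⟨D, hD⟩) 0
    obtain ⟨x, z, l, h1, h2⟩ := hk X (hsat k) (fun x => by
      obtain ⟨l, hl⟩ := (hA (x, g x)).1 rfl
      exact ⟨g x, l, hl⟩)
    have h3 : g x = z := (hA (x, z)).2 ⟨l, h1⟩
    exact hg2 x (by rw [h3]; exact h2)

end Pool.Agent.helper63.Dg4
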