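import Pool.Agent.helper63.Dg4.ENG
import Pool.Agent.helper51.Dg4.FIN
import Pool.Agent.helper88.Dg4.RED
import Pool.Agent.helper9.Dg4.UPW
import Pool.Agent.helper70.Dg4.PI4
import Pool.Agent.helper37.Dg4.ENQ
import Pool.Agent.helper98.Dg4.DAX
import Pool.Agent.helper89.Dg4.DAT
import Pool.Agent.helper82.Dg4.FOR
import Pool.Agent.helper36.Dg4.CEK
import Pool.Agent.helper41.Dg4.CMP

namespace Pool.Agent.helper63.Dg4

/-- the main facts, from the rows still missing -/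
theorem main1 (hEXT : EXT_stmt) (hCOL : COL_stmt) (hGEN : GEN_stmt) (hGTU : GTU_stmt)
    (hNCO : NCO_stmt) (hFCE : FCE_stmt) :
    PI4_stmt ∧ FIN_stmt ∧ UPW_stmt ∧ FCE_stmt :=
  have hHEX : HEX_stmt := HEX ENG
  have hFORCE : FORCE_stmt := FORCE hEXT CEK CMP hGTU hNCO
  ⟨PI4, FIN (PZ hHEX) hCOL (DAT hEXT) RED hEXT hGEN DAX CHC hHEX (ENQ ENG) hFORCE, UPW, hFCE⟩

end Pool.Agent.helper63.Dg4
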