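import Pool.Agent.helper63.Dg4.Fin2
import Pool.Agent.helper13.Dg4.COL
import Pool.Agent.helper32.Dg4.EXT
import Pool.Agent.helper26.Dg4.GTU

namespace Pool.Agent.helper63.Dg4

/-- the main facts, from the rows still missing -/
theorem main2 (hGEN : GEN_stmt) (hNCO : NCO_stmt)
    (hFCE : PZ_stmt → COL_stmt → DAT_stmt → GEN_stmt → DAX_stmt → ENQ_stmt → FORCE_stmt →
      FCE_stmt) :
    PI4_stmt ∧ FIN_stmt ∧ UPW_stmt ∧ FCE_stmt :=
  main1 EXT COL hGEN (GTU CEK CMP) hNCO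
    (hFCE (PZ (HEX ENG)) COL (DAT EXT) hGEN DAX (ENQ ENG) (FORCE EXT CEK CMP (GTU CEK CMP) hNCO))

end Pool.Agent.helper63.Dg4
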