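import Pool.Agent.helper63.Dg4.Spec

/-!
# Row GEN of the project dg4 (MP_a87378_lc)
-/

namespace Pool.Agent.helper63.Dg4

open Encodable Pool.Agent.helper63.Diag

/-- every condition is satisfied by some function -/
theorem gen_exists_sat (p : Cond) : ∃ g, Sat p g := by
  obtain ⟨v, hv⟩ := p.ne
  refine ⟨fun i => if i < p.σ.length then p.σ.getD i 0 else 0, ?_, v, hv, ?_⟩
  · apply List.ext_getElem
    · simp
    · intro i h1 h2
      simp [res, h2]
  · intro i hi
    simp only [not_lt.2 hi, if_false]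
    exact ⟨fun _ => rfl, fun _ => Or.inl rfl⟩

/-- a limit of functions satisfying `p` satisfies `p` -/
theorem gen_sat_limit (p : Cond) (g : ℕ → ℕ) (h : ∀ k, ∃ g', Sat p g' ∧ ∀ i < k, g' i = g i) :
    Sat p g := by
  refine ⟨?_, ?_⟩
  · obtain ⟨g', h1, h2⟩ := h p.σ.length
    have h3 : res g p.σ.length = res g' p.σ.length := res_congr (fun i hi => (h2 i hi).symm)
    rw [h3]
    exact h1.1
  let S : ℕ → Set (ℕ → ℕ) := fun k => {v | (∀ j ≤ k, ¬ p.Bad (res v j)) ∧
    ∀ i < k, p.σ.length ≤ i → Ok p.ab p.fl v i (g i)}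
  obtain ⟨v, hv1, hv2⟩ := compactness (n := p.n) S (fun k => by
    have h1 : S k = (⋂ j, ⋂ (_ : j ≤ k), {v | ¬ p.Bad (res v j)}) ∩
        (⋂ i, ⋂ (_ : i < k), ⋂ (_ : p.σ.length ≤ i), {v | Ok p.ab p.fl v i (g i)}) := by
      ext v
      simp only [S, Set.mem_ofPred_eq, Set.mem_inter_iff, Set.mem_iInter]
    rw [h1]
    refine IsClosed.inter (isClosed_iInter fun j => isClosed_iInter fun _ =>
      (isClopen_dep j (fun l => ¬ p.Bad l)).isClosed) ?_
    refine isClosed_iInter fun i => isClosed_iInter fun _ => isClosed_iInter fun _ => ?_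
    have h2 : {v : ℕ → ℕ | Ok p.ab p.fl v i (g i)} =
        {v : ℕ → ℕ | p.ab.getD (col i) 0 = 1 → g i = 0} ∩
        ({v : ℕ → ℕ | ¬ p.ab.getD (col i) 0 = 2} ∪ ({v : ℕ → ℕ | g i = 0} ∪
          {v : ℕ → ℕ | v (Nat.pair (col i) (g i - 1)) =
            p.fl (v (Nat.pair (col i) (el i)))})) := by
      ext v
      constructor
      · rintro ⟨h3, h4⟩
        refine ⟨h3, ?_⟩
        by_cases h5 : p.ab.getD (col i) 0 = 2
        · exact Or.inr (h4 h5)
        · exact Or.inl h5
      · rintro ⟨h3, h4⟩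
        exact ⟨h3, fun h5 => h4.resolve_left (fun h6 => h6 h5)⟩
    rw [h2]
    refine IsClosed.inter isClosed_const (IsClosed.union isClosed_const
      (IsClosed.union isClosed_const ?_))
    exact isClosed_eq (continuous_apply _)
      (continuous_of_discreteTopology.comp (continuous_apply _))) (fun k => by
    obtain ⟨g', ⟨-, v, hv, h2⟩, h4⟩ := h k
    refine ⟨v, hv.1, fun j hj => ⟨fun j' _ => hv.2 j', fun i hi hi2 => ?_⟩⟩
    rw [← h4 i (by omega)]
    exact h2 i hi2)
  exact ⟨v, ⟨hv1, fun k => (hv2 k).1 k le_rfl⟩, fun i hi => (hv2 (i + 1)).2 i (by omega) hi⟩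

theorem GEN (hEXT : EXT_stmt) : GEN_stmt := by
  classical
  intro P DD hden hsm p0 hp0
  have step : ∀ (m : ℕ) (p : {p : Cond // P p}), ∃ q : {p : Cond // P p}, Le q.1 p.1 ∧
      p.1.σ.length < q.1.σ.length ∧ DD m.unpair.1 q.1 := by
    rintro m ⟨p, hp⟩
    obtain ⟨g, hg⟩ := gen_exists_sat p
    obtain ⟨q', h1, h2, h3, -, -, -⟩ := hEXT p g (p.σ.length + 1) hg (Nat.le_succ _)
    obtain ⟨q, h4, h5, h6⟩ := hden q' (hsm p q' hp h1 h2) m.unpair.1
    refine ⟨⟨q, h4⟩, h5.trans h1, ?_, h6⟩
    have h7 := length_le_of_take h5.2.1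
    rw [h3, res_length] at h7
    exact h7
  choose nxt hn1 hn2 hn3 using step
  let seq : ℕ → {p : Cond // P p} := fun m => Nat.rec ⟨p0, hp0⟩ (fun m s => nxt m s) m
  have hseq : ∀ m, seq (m + 1) = nxt m (seq m) := fun m => rfl
  have hle : ∀ m k, m ≤ k → Le (seq k).1 (seq m).1 := by
    intro m k h
    induction h with
    | refl => exact Le.refl _
    | step h ih =>
      rename_i k
      rw [hseq]
      exact (hn1 k (seq k)).trans ih
  have hlen : ∀ m, m ≤ (seq m).1.σ.length := by
    intro m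
    induction m with
    | zero => omega
    | succ m ih =>
      have := hn2 m (seq m)
      rw [hseq]
      omega
  let g : ℕ → ℕ := fun i => (seq (i + 1)).1.σ.getD i 0
  have hg : ∀ m, res g (seq m).1.σ.length = (seq m).1.σ := by
    intro m
    apply List.ext_getElem
    · simp
    · intro i h1 h2
      have h3 : (res g (seq m).1.σ.length).getD i 0 = (seq m).1.σ.getD i 0 := by
        rw [res_getD g h2]
        show (seq (i + 1)).1.σ.getD i 0 = _
        rcases le_total (i + 1) m with h | h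
        · exact getD_of_take (hle _ _ h).2.1 (hlen (i + 1))
        · exact (getD_of_take (hle _ _ h).2.1 h2).symm
      rw [List.getD_eq_getElem?_getD, List.getD_eq_getElem?_getD,
        List.getElem?_eq_getElem h1, List.getElem?_eq_getElem h2] at h3
      simpa using h3
  refine ⟨fun m => (seq m).1, g, rfl, fun m => (seq m).2, hle, fun i m0 => ?_, hlen, fun m => ?_⟩
  · refine ⟨Nat.pair i m0 + 1, ?_, ?_⟩
    · exact (Nat.right_le_pair i m0).trans (Nat.le_succ _)
    · have h := hn3 (Nat.pair i m0) (seq (Nat.pair i m0))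
      rw [Nat.unpair_pair] at h
      exact h
  · refine gen_sat_limit _ g (fun k => ?_)
    obtain ⟨g', hg'⟩ := gen_exists_sat (seq (max m k)).1
    refine ⟨g', (hle _ _ (le_max_left m k)).2.2 g' hg', fun i hi => ?_⟩
    have h5 : res g' (seq (max m k)).1.σ.length = res g (seq (max m k)).1.σ.length := by
      rw [hg'.1, hg]
    refine res_inj h5 i (lt_of_lt_of_le hi ?_)
    exact (le_max_right m k).trans (hlen _)

end Pool.Agent.helper63.Dg4
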