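import Pool.Agent.helper63.Dg4.Fin3
import Pool.Agent.helper63.Dg4.FCE
import Pool.Agent.helper77.Dg4.GEN
import Pool.Agent.helper66.Dg4.NCO

namespace Pool.Agent.helper63.Dg4

/-- the main facts -/
theorem main : PI4_stmt ∧ FIN_stmt ∧ UPW_stmt ∧ FCE_stmt := main2 (GEN EXT) NCO FCE

end Pool.Agent.helper63.Dg4
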