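import Pool.Agent.helper63.Diag.Limit
import Pool.Agent.helper63.Diag.Conv

/-!
# `Diag` is not `Σ⁰₄`: specification (project dg4, problem MP_a87378_lc)

**Result.**  Let `Diag` be the set of all `X : ℕ → ℕ` computing a diagonal function for every ceer
with at least two classes.  `Diag` is a (boldface) `Π⁰₄` set but not a `Σ⁰₄` set.  Hence there is
no `Σ⁰₄` set `S` of functions such that `Diag` is the set of `X` computing a member of `S`; and
for any finitely many ceers there is a further ceer `E' ≠ Id₁` and an `X` computing a diagonal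
function for each of the given ones but none for `E'`.

**Plan.**  Call a ceer hard (`HC`) if it has at least two classes and no computable diagonal
function.  A forcing condition (`Cond`) has finitely many active columns, each devoted to one hard
ceer, finitely many dead columns, a finite string `σ`, and a non-empty `Π⁰₁` class `cls n Bad` of
colourings `v` of the points `⟨κ, x⟩` (column `κ`, element `x`).  The oracle `g` has positions
`⟨κ, ⟨x, s⟩⟩`; the entry `0` means blank, the entry `y + 1` at the position `⟨κ, ⟨x, s⟩⟩` of an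
active column asserts that `y` is not equivalent to `x`: it must satisfy
`v ⟨κ, y⟩ = fl (v ⟨κ, x⟩)`, where `fl` is a fixed-point free map of the colours.  Positions in
dead columns must be blank, positions in free columns are free.  Blank entries are always allowed,
so that a condition remains satisfied when one of its active columns is left blank for ever.

* `ENG` (the finite-injury construction, recursion theory only): for given c.e. relations without
  computable avoiding functions there is a ceer `E'` with the two properties `RProp`, `QProp`.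
* `FORCE`: with these, every condition has an extension forcing that a given functional does not
  compute a diagonal function for `E'`; the active columns stay the same.
* `EXT`, `DAT`, `COL`, `RED`, `GEN`: elementary operations and generic sequences.
* `FIN`: if `Diag = ⋃ₙ ⋂ₘ ⋃ᵢ C n m i` with closed sets, then for some `n` there is a condition `q`
  such that for all `r ≤ q` and `m` there are `r' ≤ r` and `i` with `[r'] ⊆ C n m i` (otherwise a
  generic `X`, which is in `Diag`, is in no `⋂ₘ ⋃ᵢ C n m i`).  Now take `E'` for the ceers active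
  in `q` and build `X'` with the same active ceers: in turn meet `C n m i` for some `i` and
  deactivate the new columns (`RED`), and apply `FORCE`.  Then `X' ∈ Diag` but `X'` computes no
  diagonal function for `E'`.
-/

namespace Pool.Agent.helper63.Dg4

open Encodable Pool.Agent.helper63.Diag

/-- computably enumerable, in normal form: `A a ↔ ∃ k, D (0ᵏ) a` with `D` primitive recursive.
Use the closure lemmas `S1.and`, `S1.or`, `S1.ex`, `S1.ball`, `S1.empty`, … of `Diag/S1.lean`,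
`Diag/Compact.lean`, and `S1.of_re` (`Diag/Base.lean`). -/
abbrev CE {α : Type} [Primcodable α] (A : α → Prop) : Prop := S1 (fun _ => 0) A

/-- colourings with `k` colours constant on the classes of `E'` -/
def Inv (E' : ℕ → ℕ → Prop) (k : ℕ) (w : ℕ → ℕ) : Prop :=
  (∀ z, w z < k) ∧ ∀ z z', E' z z' → w z = w z'

/-- the first property of the constructed ceer -/
def RProp (E' : ℕ → ℕ → Prop) : Prop :=
  ∀ W : ℕ × ℕ × List ℕ → Prop, CE W → ∃ ℓ, 2 ≤ ℓ ∧
    ((∃ a γ, a < ℓ ∧ W (ℓ, a, γ) ∧ E' ℓ a ∧ ∀ z < γ.length, E' z (γ.getD z 0)) ∨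
     (∃ c, Inv E' (ℓ + 1) c ∧ (∀ z, c z = ℓ → E' z ℓ) ∧ ∀ a < ℓ, ∀ m, ¬ W (ℓ, a, res c m)))

/-- the second property of the constructed ceer, with respect to a relation `G` -/
def QProp (E' G : ℕ → ℕ → Prop) : Prop :=
  ∀ (k : ℕ) (A : List ℕ × ℕ × ℕ → Prop), CE A →
    (∀ w, Inv E' k w → ∃ m y z, A (res w m, y, z) ∧ G y z) ∨
    (∃ w, Inv E' k w ∧ ∃ y, ∀ m z, ¬ A (res w m, y, z))

/-- **ENG** the finite-injury construction -/
def ENG_stmt : Prop :=
  ∀ F : ℕ → ℕ → ℕ → Prop, CE (fun p : ℕ × ℕ × ℕ => F p.1 p.2.1 p.2.2) →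
    (∀ j, ¬ ∃ g : ℕ → ℕ, Computable g ∧ ∀ y, ¬ F j y (g y)) →
    ∃ E' : ℕ → ℕ → Prop, Equivalence E' ∧ CE (fun p : ℕ × ℕ => E' p.1 p.2) ∧ ¬ E' 0 1 ∧
      RProp E' ∧ ∀ j, QProp E' (F j)

/-- a ceer with at least two classes and no computable diagonal function -/
structure HC where
  E : ℕ → ℕ → Prop
  eqv : Equivalence E
  ce : CE fun p : ℕ × ℕ => E p.1 p.2
  ne : ∃ a b, ¬ E a b
  hard : ¬ ∃ g : ℕ → ℕ, Computable g ∧ ∀ x, ¬ E (g x) x

/-- the column of the position `i = ⟨κ, ⟨x, s⟩⟩` -/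
def col (i : ℕ) : ℕ := i.unpair.1

/-- the element of the position `i = ⟨κ, ⟨x, s⟩⟩` -/
def el (i : ℕ) : ℕ := i.unpair.2.unpair.1

/-- The entry `y` is allowed at position `i` for the colouring `v` of the points `⟨κ, x⟩`.
`ab` lists the status of the columns: `2` active, `1` dead, `0` or missing: free. -/
def Ok (ab : List ℕ) (fl v : ℕ → ℕ) (i y : ℕ) : Prop :=
  (ab.getD (col i) 0 = 1 → y = 0) ∧
  (ab.getD (col i) 0 = 2 →
    y = 0 ∨ v (Nat.pair (col i) (y - 1)) = fl (v (Nat.pair (col i) (el i))))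

/-- Forcing conditions. -/
structure Cond where
  ab : List ℕ
  ce : ℕ → HC
  σ : List ℕ
  n : ℕ
  fl : ℕ → ℕ
  Y : ℕ → ℕ → ℕ
  z0 : ℕ
  Bad : List ℕ → Prop
  re : CE Bad
  hfl : Primrec fl
  inv : ∀ v ∈ cls n Bad, ∀ κ, ab.getD κ 0 = 2 → ∀ x z, (ce κ).E x z →
    v (Nat.pair κ x) = v (Nat.pair κ z)
  fl_ne : ∀ v ∈ cls n Bad, ∀ κ, ab.getD κ 0 = 2 → ∀ x, fl (v (Nat.pair κ x)) ≠ v (Nat.pair κ x)
  yc : ∀ v ∈ cls n Bad, ∀ κ, ab.getD κ 0 = 2 → ∀ x,
    v (Nat.pair κ (Y κ (fl (v (Nat.pair κ x))))) = fl (v (Nat.pair κ x))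
  zz : ∀ v ∈ cls n Bad, ∀ κ, ab.getD κ 0 = 0 → ∀ x, v (Nat.pair κ x) = z0
  ne : (cls n Bad).Nonempty

/-- `g` satisfies `p`.  (The set of these `g` is closed.) -/
def Sat (p : Cond) (g : ℕ → ℕ) : Prop :=
  res g p.σ.length = p.σ ∧ ∃ v ∈ cls p.n p.Bad, ∀ i, p.σ.length ≤ i → Ok p.ab p.fl v i (g i)

/-- `q` extends `p`. -/
def Le (q p : Cond) : Prop :=
  (∀ κ, p.ab.getD κ 0 ≠ 0 → q.ab.getD κ 0 = p.ab.getD κ 0 ∧ q.ce κ = p.ce κ) ∧
  q.σ.take p.σ.length = p.σ ∧ ∀ g, Sat q g → Sat p g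

/-- every active column of `q` is active in `p`, for the same ceer -/
def Sm (q p : Cond) : Prop := ∀ κ, q.ab.getD κ 0 = 2 → p.ab.getD κ 0 = 2 ∧ q.ce κ = p.ce κ

/-- The functional `D` does not compute a diagonal function for `E'` from `g`. -/
def Req (D : List ℕ → ℕ × ℕ → Prop) (E' : ℕ → ℕ → Prop) (g : ℕ → ℕ) : Prop :=
  (∀ x, ∃ z k, D (res g k) (x, z)) → ∃ x z k, D (res g k) (x, z) ∧ E' z x

/-- `τ` extends `σ` and is compatible with the colouring `v` beyond `σ`. -/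
def Cpt (p : Cond) (v : ℕ → ℕ) (τ : List ℕ) : Prop :=
  τ.take p.σ.length = p.σ ∧
    ∀ i, p.σ.length ≤ i → i < τ.length → Ok p.ab p.fl v i (τ.getD i 0)

/-- `v ∈ K ℓ a c`: no compatible string gives a value of colour `a` at the argument `ℓ`.
(`D` is a functional: `D τ (ℓ, z)` means that `z` is a value at `ℓ` for the oracle string `τ`.) -/
def KS (p : Cond) (D : List ℕ → ℕ × ℕ → Prop) (ℓ a : ℕ) (c : ℕ → ℕ) (v : ℕ → ℕ) : Prop :=
  v ∈ cls p.n p.Bad ∧ ∀ τ, Cpt p v τ → ∀ z, D τ (ℓ, z) → c z ≠ a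

/-- `v ∈ K ℓ a γ`, the same for a finite string `γ` of colours. -/
def KF (p : Cond) (D : List ℕ → ℕ × ℕ → Prop) (ℓ a : ℕ) (γ : List ℕ) (v : ℕ → ℕ) : Prop :=
  v ∈ cls p.n p.Bad ∧ ∀ τ, Cpt p v τ → ∀ z < γ.length, D τ (ℓ, z) → γ.getD z 0 ≠ a

/-- monotone functionals (see `mon` in `Diag/Limit.lean`) -/
def Mono (D : List ℕ → ℕ × ℕ → Prop) : Prop :=
  ∀ (X : ℕ → ℕ) (a : ℕ × ℕ) (k k' : ℕ), k ≤ k' → D (res X k) a → D (res X k') a

/-- **CEK** It is c.e. that a class `K ℓ a γ` with finitely many prescribed values is empty.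
`K ℓ a γ = cls n (Bad ∨ Kill ℓ a γ)` with a c.e. relation `Kill ℓ a γ ρ` (there are `τ` with
`|τ| ≤ |ρ|`, compatible with `ρ`, all points involved being `< |ρ|`, and `z < |γ|` with
`D τ (ℓ, z)`, `γ z = a`), see `Qk`, `s1_Qk`, `mem_kill_iff` in `Diag/Cond.lean`; then
`S1.empty` (`Diag/Compact.lean`) with parameter `t`. -/
def CEK_stmt : Prop :=
  ∀ (p : Cond) (D : List ℕ → ℕ × ℕ → Prop), PrimrecRel D →
    CE (fun t : ℕ × ℕ × List ℕ × List (ℕ × ℕ) =>
      ∀ v, ¬ (KF p D t.1 t.2.1 t.2.2.1 v ∧ ∀ b ∈ t.2.2.2, v b.1 = b.2))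

/-- **CMP** Compactness (`compactness` and `isClopen_dep` in `Diag/Compact.lean`; for a fixed `τ`
the set of `v` with `Cpt p v τ` is clopen). -/
def CMP_stmt : Prop :=
  ∀ (p : Cond) (D : List ℕ → ℕ × ℕ → Prop) (ℓ a : ℕ) (c : ℕ → ℕ) (β : List (ℕ × ℕ)),
    (∀ m, ∃ v, KF p D ℓ a (res c m) v ∧ ∀ b ∈ β, v b.1 = b.2) →
    ∃ v, KS p D ℓ a c v ∧ ∀ b ∈ β, v b.1 = b.2

/-- **GTU** the good tuple.  Call a tuple `(v^a)_{a ≤ ℓ}, c` good if `Inv E' (ℓ+1) c` and
`KS p D ℓ a c (v^a)` for all `a ≤ ℓ`.  By hypothesis there is a good tuple.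

Step: for a good tuple, a number `l`, an active column `κ`, an element `x` there are `y` and a good
tuple `(u^a), c'` agreeing with `(v^a), c` below `l`, with `u^a ⟨κ, y⟩ = fl (v^a ⟨κ, x⟩)` for all
`a ≤ ℓ`.  Proof: let `A (γ, y, z)` say: `γ` disagrees with `c` somewhere below `min l |γ|`, or for
some `a ≤ ℓ`, `z = Y κ (fl (v^a ⟨κ, x⟩))` and there is no `u` with `KF p D ℓ a γ u` agreeing with
`v^a` below `l` and with `u ⟨κ, y⟩ = fl (v^a ⟨κ, x⟩)`.  `A` is c.e. by `CEK` (the prescribed values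
are a list `β` depending primitive recursively on `y`).  Apply `QProp` for `κ` with `k = ℓ + 1`.
First alternative, for `w = c`: `A (c ↾ m, y, z)` and `(ce κ).E z y` for some `m, y, z`.  For the
`a` concerned, `u = v^a` violates the last requirement, so
`v^a ⟨κ, y⟩ ≠ fl (v^a ⟨κ, x⟩) = v^a ⟨κ, z⟩` (by `yc`), which contradicts `inv`.
Second alternative: `w` and `y` with `¬ A (w ↾ m, y, z)` for all `m, z`.  So `w` agrees with `c`
below `l` (`m = l`), and by `CMP` for each `a ≤ ℓ` there is `u^a`; put `c' = w`.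

Iterate the step over all pairs `(κ, x)` as in `gen_tuple` of `Diag/Step.lean` (better: prove first
the general lemma for a property of `(ℓ+2)`-tuples of functions closed under limits) to get the
result; goodness is a closed property as `KS` and `Inv` only involve finitely many values of
`v^a`, `c` at a time. -/
def GTU_stmt : Prop :=
  ∀ (E' : ℕ → ℕ → Prop) (p : Cond) (D : List ℕ → ℕ × ℕ → Prop), PrimrecRel D →
    (∀ κ, p.ab.getD κ 0 = 2 → QProp E' (fun y z => (p.ce κ).E z y)) →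
    ∀ (ℓ : ℕ) (c : ℕ → ℕ), Inv E' (ℓ + 1) c → (∀ a ≤ ℓ, ∃ v, KS p D ℓ a c v) →
    ∃ (f : ℕ → ℕ → ℕ) (c' : ℕ → ℕ), (∀ z, c' z ≤ ℓ) ∧ (∀ a ≤ ℓ, KS p D ℓ a c' (f a)) ∧
      ∀ κ, p.ab.getD κ 0 = 2 → ∀ x, ∃ y, ∀ a ≤ ℓ,
        f a (Nat.pair κ y) = p.fl (f a (Nat.pair κ x))

/-- **NCO** the new condition, compare `Cond.force` (Case 2) in `Diag/Step.lean`.
`ab' = ab ++ [1]` (new dead column `κ₀ = |ab|`), `σ' = σ`, `ce' = ce`.  Colours are the indices
into the duplicate-free list `L` of the tuples `W i = (f 0 i, …, f ℓ i, c̃ i)`, `i ∈ ℕ`, where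
`c̃ ⟨κ₀, z⟩ = c z` and `c̃ = 0` on the other columns (`L` is a sublist of `strs M (ℓ + 2)`,
`M = max n (ℓ + 1)`); `n' = |L|`.  `π a t` is the `a`-th component of the tuple of index `t`.  `fl'`
maps the index of `W ⟨κ, x⟩`, `κ` active, to the index of `W ⟨κ, y⟩` with the `y` of the hypothesis;
`Y' κ t` is some `y` with `W ⟨κ, y⟩ = L[t]` if there is one; `z0'` is the index of
`(z0, …, z0, 0)`, which is `W ⟨|ab| + 1, 0⟩` by `zz`.  (`fl'` is given by a finite table, hence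
primitive recursive.)  `Bad' ρ` is the disjunction of
(1) `Bad (ρ.map (π a))` for some `a ≤ ℓ`;
(2) for some `a ≤ ℓ` there are `τ`, `z` with `|τ| ≤ |ρ|`, `τ` compatible with `ρ.map (π a)` (all
    points involved `< |ρ|`), `D τ (ℓ, z)`, `⟨κ₀, z⟩ < |ρ|` and `π (ℓ+1) (ρ ⟨κ₀, z⟩) = a`;
(3) some `ρ ⟨κ, x⟩`, `κ` active, is not the index of a tuple realised in the column `κ`;
(4) `ρ ⟨κ, Y' κ t⟩ ≠ t` for some `t` realised in the active column `κ`;
(5) `ρ ⟨κ, x⟩ ≠ z0'` for some column `κ ≠ κ₀` with `ab.getD κ 0 = 0`.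
If `g` satisfies `q` with `u` then it satisfies `p` with `π 0 ∘ u`.  If also `D (res g k) (ℓ, z)`,
put `a = π (ℓ+1) (u ⟨κ₀, z⟩) ≤ ℓ`; then `π a ∘ u` with `τ = res g (max k |σ|)` contradicts (2). -/
def NCO_stmt : Prop :=
  ∀ (p : Cond) (D : List ℕ → ℕ × ℕ → Prop), PrimrecRel D → Mono D →
    ∀ (ℓ : ℕ) (f : ℕ → ℕ → ℕ) (c : ℕ → ℕ), (∀ z, c z ≤ ℓ) → (∀ a ≤ ℓ, KS p D ℓ a c (f a)) →
    (∀ κ, p.ab.getD κ 0 = 2 → ∀ x, ∃ y, ∀ a ≤ ℓ,
        f a (Nat.pair κ y) = p.fl (f a (Nat.pair κ x))) →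
    ∃ q : Cond, Le q p ∧ Sm q p ∧ ∀ g, Sat q g → ∀ z k, ¬ D (res g k) (ℓ, z)

/-- **FORCE** (from `EXT`, `CEK`, `CMP`, `GTU`, `NCO`)

We may replace `D` by `mon D` (`Diag/Limit.lean`: `prim_mon`, `mon_mono`, `ex_mon`), so let `D` be
monotone.  Let `W (ℓ, a, γ)` say that there is no `v` with `KF p D ℓ a γ v`; it is c.e. by `CEK`.
Apply `RProp E'` to `W` and get `ℓ`.

Case 1: `a < ℓ`, `W (ℓ, a, γ)`, `E' ℓ a`, `E' z (γ z)` for `z < |γ|`.  Take `v ∈ cls n Bad`.
As not `KF p D ℓ a γ v`, there are `τ` with `Cpt p v τ` and `z < |γ|` with `D τ (ℓ, z)`, `γ z = a`,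
so `E' z ℓ`.  The function `g = τ000…` satisfies `p`; extend by `EXT` with `K = |τ|`: every `g'`
satisfying the new condition has `D (res g' |τ|) (ℓ, z)`.

Case 2: `c` with `Inv E' (ℓ+1) c`, `c z = ℓ → E' z ℓ`, and for all `a < ℓ`, `m` there is `v` with
`KF p D ℓ a (res c m) v`.  By `CMP` (`β = []`) there is `v` with `KS p D ℓ a c v` for each `a < ℓ`.
If there is none for `a = ℓ` then take `v ∈ cls n Bad`, get `τ` with `Cpt p v τ`, `z` with
`D τ (ℓ, z)`, `c z = ℓ`, so `E' z ℓ`: extend by `τ` as before.  Otherwise apply `GTU` and `NCO`: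
every `g` satisfying the new condition has no value at `ℓ`. -/
def FORCE_stmt : Prop :=
  ∀ E' : ℕ → ℕ → Prop, Equivalence E' → RProp E' → ∀ p : Cond,
    (∀ κ, p.ab.getD κ 0 = 2 → QProp E' (fun y z => (p.ce κ).E z y)) →
    ∀ D : List ℕ → ℕ × ℕ → Prop, PrimrecRel D →
      ∃ q : Cond, Le q p ∧ Sm q p ∧ ∀ g, Sat q g → Req D E' g

/-- **EXT** Take `q.Bad = p.Bad ∨ (incompatible with res g K)`, cf. `Cond.extend` and `Inc` in
`Diag/Cond.lean`. -/
def EXT_stmt : Prop :=
  ∀ (p : Cond) (g : ℕ → ℕ) (K : ℕ), Sat p g → p.σ.length ≤ K →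
    ∃ q : Cond, Le q p ∧ Sm q p ∧ q.σ = res g K ∧ Sat q g ∧ q.ab = p.ab ∧ q.ce = p.ce

/-- **DAT** Take `v ∈ cls n Bad`, a position `i = ⟨κ, ⟨x, s⟩⟩` with `i ≥ B, |σ|` and the function
`g` with `g j = σ j` for `j < |σ|`, `g i = Y κ (fl (v ⟨κ, x⟩)) + 1` and `0` elsewhere; it satisfies
`p`.  Apply `EXT` with `K = i + 1`. -/
def DAT_stmt : Prop :=
  ∀ (p : Cond) (κ x B : ℕ), p.ab.getD κ 0 = 2 →
    ∃ q : Cond, Le q p ∧ Sm q p ∧
      ∃ i, (B ≤ i ∧ i < q.σ.length) ∧ (col i = κ ∧ el i = x) ∧ q.σ.getD i 0 ≠ 0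

/-- **COL** Add an active column `κ = |ab|` for `C`; let `¬ C.E a b`.  New colours `n, n + 1`
(`n' = n + 2`), `fl' = fl` below `n`, `fl' n = n + 1`, `fl' (n + 1) = n`; `Y' κ n = a`,
`Y' κ (n + 1) = b`.  `Bad' ρ` says: `Bad ρ'` where `ρ'` is `ρ` with the entries at the points of
column `κ` replaced by `z0`; or some entry of `ρ` outside column `κ` is `≥ n`; or some entry in
column `κ` is `< n`; or `ρ ⟨κ, a⟩ ≠ n` or `ρ ⟨κ, b⟩ ≠ n + 1` or `ρ ⟨κ, x⟩ ≠ ρ ⟨κ, z⟩` with `C.E x z`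
(points `< |ρ|` only).  Non-empty: `v` changed on column `κ` to `n` on the class of `a` and
`n + 1` elsewhere (here `zz` is used). -/
def COL_stmt : Prop :=
  ∀ (p : Cond) (C : HC), ∃ (q : Cond) (κ : ℕ), Le q p ∧ q.ab.getD κ 0 = 2 ∧ q.ce κ = C

/-- **RED** (deactivate columns) `q` is `r` with `ab` changed to `1` at all columns which are active
in `r` but not in `q0`. -/
def RED_stmt : Prop :=
  ∀ p r q0 : Cond, Le r p → Le p q0 → Sm p q0 →
    ∃ q : Cond, Le q p ∧ Sm q q0 ∧ ∀ g, Sat q g → Sat r g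

/-- **PZ** the trivial condition: no columns, `n = 1`, `Bad` never. -/
def PZ_stmt : Prop := ∃ p : Cond, p.ab = [] ∧ p.σ = []

/-- **GEN** (see `add_diag` in `Diag/Limit.lean`; first lengthen by `EXT`, then apply the
hypothesis for `i = m.unpair.1` at step `m`; `X` is the union of the strings; `Sat (s m) X` by
compactness) -/
def GEN_stmt : Prop :=
  ∀ (P : Cond → Prop) (DD : ℕ → Cond → Prop),
    (∀ p, P p → ∀ i, ∃ q, P q ∧ Le q p ∧ DD i q) → (∀ p q, P p → Le q p → Sm q p → P q) →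
    ∀ p0, P p0 → ∃ (s : ℕ → Cond) (X : ℕ → ℕ), s 0 = p0 ∧ (∀ m, P (s m)) ∧
      (∀ m k, m ≤ k → Le (s k) (s m)) ∧ (∀ i m0, ∃ m ≥ m0, DD i (s m)) ∧
      (∀ m, m ≤ (s m).σ.length) ∧ ∀ m, Sat (s m) X

/-- `f` is Turing computable from `X` -/
def ComputableFrom (f X : ℕ → ℕ) : Prop :=
  TuringReducible (fun n => Part.some (f n)) (fun n => Part.some (X n))

/-- a ceer -/
def IsCeer (E : ℕ → ℕ → Prop) : Prop :=
  Equivalence E ∧ REPred fun p : ℕ × ℕ => E p.1 p.2

/-- `X` computes a diagonal function for `E` -/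
def CompDiag (X : ℕ → ℕ) (E : ℕ → ℕ → Prop) : Prop :=
  ∃ g : ℕ → ℕ, ComputableFrom g X ∧ ∀ x, ¬ E (g x) x

/-- the class `Diag` -/
def InDiag (X : ℕ → ℕ) : Prop :=
  ∀ E : ℕ → ℕ → Prop, IsCeer E → (∃ a b, ¬ E a b) → CompDiag X E

/-- **DAX** active columns of a generic sequence compute diagonal functions.  Let `κ` be active in
`s m`, `B = |(s m).σ|` and `v` the colouring from `Sat (s m) X`.  The relation
`A (x, z) :↔ ∃ i, B ≤ i ∧ col i = κ ∧ el i = x ∧ X i ≠ 0 ∧ z = X i - 1` is `S1 X` and total; if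
`A (x, z)` then `v ⟨κ, z⟩ = fl (v ⟨κ, x⟩) ≠ v ⟨κ, x⟩`, so `z` and `x` are not equivalent.  Use
`S1.unif` (`Diag/Base.lean`) and `RI.of_s1` (`Diag/Conv.lean`). -/
def DAX_stmt : Prop :=
  ∀ (s : ℕ → Cond) (X : ℕ → ℕ), (∀ m, Sat (s m) X) → (∀ m k, m ≤ k → Le (s k) (s m)) →
    (∀ κ x B m0, ∃ m ≥ m0, (s m).ab.getD κ 0 = 2 →
      ∃ i, (B ≤ i ∧ i < (s m).σ.length) ∧ (col i = κ ∧ el i = x) ∧ (s m).σ.getD i 0 ≠ 0) →
    ∀ m κ, (s m).ab.getD κ 0 = 2 → CompDiag X ((s m).ce κ).E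

/-- **CHC** (the relations `D` of the normal forms are countably many, `countable_primrecRel` in
`Diag/Limit.lean`) -/
def CHC_stmt : Prop := Countable HC

/-- **ENQ** the constructed ceer for a condition `q`: apply `ENG` to the relation
`F j y z :↔ (q.ab.getD j 0 = 2 → (q.ce j).E z y)` (c.e., as there are finitely many active
columns). -/
def ENQ_stmt : Prop :=
  ∀ q : Cond, ∃ E' : ℕ → ℕ → Prop, IsCeer E' ∧ ¬ E' 0 1 ∧ RProp E' ∧
    ∀ κ, q.ab.getD κ 0 = 2 → QProp E' (fun y z => (q.ce κ).E z y)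

/-- **RE1** from the normal form to `REPred` -/
def RE1_stmt : Prop := ∀ A : ℕ × ℕ → Prop, CE A → REPred A

/-- **HEX** hard ceers exist: apply `ENG` with `F` always true; if `h` were a computable diagonal
function of `E'` use `RProp` for `W (ℓ, a, γ) := h ℓ < |γ| ∧ γ (h ℓ) = a`. -/
def HEX_stmt : Prop := Nonempty HC

/-- **FIN** (from `PZ`, `COL`, `DAT`, `RED`, `EXT`, `GEN`, `DAX`, `CHC`, `HEX`, `ENQ`, `FORCE`)

Assume `InDiag X ↔ ∃ n, ∀ m, ∃ i, X ∈ C n m i` for all `X`.  Write `[q]` for the (closed) set of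
the `g` with `Sat q g`.

(A) Suppose that for all `n`: for all `q` there are `r ≤ q` and `m` such that for all `r' ≤ r` and
all `i`, `[r'] ⊄ C n m i`.  By `GEN` (with `P` always true, starting from `PZ`) take a generic
sequence for the countably many tasks: for `n`: such `r`; for `n, m, i`: `[r] ⊆ C n m i` or
`[r] ∩ C n m i = ∅` (possible: if `[p] ⊄ C n m i` take `g ∈ [p]` outside, by closedness some `res g K`
guarantees that, use `EXT`; closed sets of `ℕ → ℕ` are determined by initial segments); for a hard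
ceer `C`: some active column for `C` (`COL`; enumerate the hard ceers by `CHC`, `HEX`); for
`κ, x, B`: the data of `DAT`, if `κ` is active.  The limit `X` is in `Diag`: for a ceer with a
computable diagonal function this is trivial (`RI.prim` is not enough: a computable function is
recursive in every oracle, `Nat.Partrec.recursiveIn`), for a hard one use `DAX`.  So
`∀ m, ∃ i, X ∈ C n m i` for some `n`.  Let `s k` be the member of the sequence for the task `n`, with
its `m`, and let `X ∈ C n m i`.  The member `s k'` for the task `n, m, i` has `[s k'] ⊆ C n m i` as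
`X ∈ [s k']`.  With `r' = s (max k k')` this contradicts the choice of `s k`.

(B) So there are `n` and `q0` such that for all `r ≤ q0` and `m` there are `r' ≤ r` and `i` with
`[r'] ⊆ C n m i`.  Take `E'` for `q0` by `ENQ`.  Let `P p :↔ Le p q0 ∧ Sm p q0`.  By `GEN` take a
generic sequence in `P` from `q0` for the tasks: for `m`: `[r] ⊆ C n m i` for some `i` (from `p` get
`r' ≤ p`, then apply `RED` to `p, r', q0`); for each primitive recursive `D`:
`∀ g, Sat r g → Req D E' g` (`FORCE`; the relations `D` are enumerated by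
`countable_primrecRel`).  The limit `X` has `∀ m, ∃ i, X ∈ C n m i`, so `X ∈ Diag` and it computes a
diagonal function `g` for `E'`.  By `s1_graph` (`Diag/Turing.lean`) its graph is given by some `D`,
which contradicts `Req D E' X`. -/
def FIN_stmt : Prop :=
  ∀ C : ℕ → ℕ → ℕ → Set (ℕ → ℕ), (∀ n m i, IsClosed (C n m i)) →
    ¬ ∀ X, InDiag X ↔ ∃ n, ∀ m, ∃ i, X ∈ C n m i

/-- **FCE** no finite set of ceers suffices.  (From `PZ`, `COL`, `DAT`, `GEN`, `DAX`, `ENQ`, `FORCE`.)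
Starting from `PZ` add by `COL` an active column for each hard ceer of `L`, and get `q0`.  Take `E'`
for `q0` by `ENQ` and a generic sequence in `P p :↔ Le p q0 ∧ Sm p q0` for the tasks `FORCE`
(each `D`) and `DAT` (each `κ, x, B`); see the proof of `FIN`. -/
def FCE_stmt : Prop :=
  ∀ L : List (ℕ → ℕ → Prop), (∀ E ∈ L, IsCeer E ∧ ∃ a b, ¬ E a b) →
    ∃ E' : ℕ → ℕ → Prop, IsCeer E' ∧ (∃ a b, ¬ E' a b) ∧
      ∃ X, (∀ E ∈ L, CompDiag X E) ∧ ¬ CompDiag X E'

/-- **UPW** the upward closure of a `Σ⁰₄` set is a `Σ⁰₄` set.  By `s1_graph` (`Diag/Turing.lean`)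
and `RI.of_s1` (`Diag/Conv.lean`), `f` is computable from `X` iff for some primitive recursive `D`
(there are countably many, `countable_primrecRel`), `f x = z ↔ ∃ k, D (res X k) (x, z)`.  For given
`D` and `n` the conditions on `X` are: for all `x` there are `z, k` with `D (res X k) (x, z)` (`⋂ ⋃`
of clopen sets, `isClopen_dep`); for all `x, z, z', k, k'` with `z ≠ z'` not both
`D (res X k) (x, z)`, `D (res X k') (x, z')` (clopen); and for all `m` there is `i` such that `X` is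
in the closed set: for every string `τ` such that no `f ∈ C n m i` has `res f |τ| = τ`, it is not
the case that for all `j < |τ|` there is `k` with `D (res X k) (j, τ j)`.  The index `m` of `C'`
codes the kind of the condition and its parameters. -/
def UPW_stmt : Prop :=
  ∀ C : ℕ → ℕ → ℕ → Set (ℕ → ℕ), (∀ n m i, IsClosed (C n m i)) →
    ∃ C' : ℕ → ℕ → ℕ → Set (ℕ → ℕ), (∀ n m i, IsClosed (C' n m i)) ∧
      ∀ X, (∃ f, ComputableFrom f X ∧ ∃ n, ∀ m, ∃ i, f ∈ C n m i) ↔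
        ∃ n, ∀ m, ∃ i, X ∈ C' n m i

/-- **PI4** `Diag` is a `Π⁰₄` set: `InDiag X` iff for each ceer `C` with two classes (countably many:
`Cr`, `countable_cr` in `Diag/Upper.lean`) there is a primitive recursive `D` with: for all `x` there
are `z, k` with `D (res X k) (x, z)` (open), and for all `x, z, k`: `D (res X k) (x, z) → ¬ C.E z x`
(clopen).  (From right to left use `S1.unif`, `RI.of_s1`.) -/
def PI4_stmt : Prop :=
  ∃ O : ℕ → ℕ → ℕ → Set (ℕ → ℕ), (∀ n m i, IsOpen (O n m i)) ∧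
    ∀ X, InDiag X ↔ ∀ n, ∃ m, ∀ i, X ∈ O n m i

/-! ### Elementary facts -/

theorem Le.refl (p : Cond) : Le p p := ⟨fun _ _ => ⟨rfl, rfl⟩, by simp, fun _ h => h⟩

theorem Le.trans {p q r : Cond} (h : Le r q) (h' : Le q p) : Le r p := by
  obtain ⟨a1, a2, a3⟩ := h
  obtain ⟨b1, b2, b3⟩ := h'
  refine ⟨fun κ hκ => ?_, ?_, fun g hg => b3 g (a3 g hg)⟩
  · obtain ⟨h1, h2⟩ := b1 κ hκ
    obtain ⟨h3, h4⟩ := a1 κ (by rw [h1]; exact hκ)
    exact ⟨h3.trans h1, h4.trans h2⟩
  · have hl := length_le_of_take b2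
    have : r.σ.take p.σ.length = (r.σ.take q.σ.length).take p.σ.length := by
      rw [List.take_take, Nat.min_eq_left hl]
    rw [this, a2, b2]

theorem Sm.refl (p : Cond) : Sm p p := fun _ h => ⟨h, rfl⟩

theorem Sm.trans {p q r : Cond} (h : Sm r q) (h' : Sm q p) : Sm r p := fun κ hκ =>
  ⟨(h' κ (h κ hκ).1).1, (h κ hκ).2.trans (h' κ (h κ hκ).1).2⟩

end Pool.Agent.helper63.Dg4
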